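import Pool.Agent.H8.KimA.Form

/-!
# `𝒳_ℓ` is admissible
-/

open MvPolynomial

noncomputable section

namespace Pool.Agent.KimAff

theorem squarefree_field {K : Type*} [Field K] {ℓ : ℕ} (hℓ : (ℓ : K) ≠ 0) :
    Squarefree (X 0 ^ ℓ - C (ℓ : K) * X 1 ^ ℓ : MvPolynomial (Fin 2) K) := by
  have hX0 : Prime (X 0 : MvPolynomial (Fin 2) K) := MvPolynomial.X_prime
  have hX1 : Prime (X 1 : MvPolynomial (Fin 2) K) := MvPolynomial.X_prime
  have hC : ∀ a : K, a ≠ 0 → IsUnit (C a : MvPolynomial (Fin 2) K) := fun a ha =>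
    (isUnit_iff_ne_zero.mpr ha).map C
  rintro g ⟨h, hg⟩
  have key : ∀ i : Fin 2, g ∣ pderiv i (X 0 ^ ℓ - C (ℓ : K) * X 1 ^ ℓ) := by
    intro i
    rw [hg, Derivation.leibniz, Derivation.leibniz]
    simp only [smul_eq_mul]
    exact ⟨g * pderiv i h + h * (pderiv i g + pderiv i g), by ring⟩
  have h0 := key 0
  have h1 := key 1
  simp only [map_sub, Derivation.leibniz, Derivation.leibniz_pow, pderiv_C, pderiv_X_self,
    pderiv_X_of_ne (show (1 : Fin 2) ≠ 0 by decide), pderiv_X_of_ne (show (0 : Fin 2) ≠ 1 by decide),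
    smul_eq_mul, nsmul_eq_mul, mul_zero, mul_one, add_zero, sub_zero, zero_sub, dvd_neg] at h0 h1
  have e : ((ℓ : ℕ) : MvPolynomial (Fin 2) K) = C (ℓ : K) := (map_natCast C ℓ).symm
  rw [e] at h0 h1
  have h0' : g ∣ X 0 ^ (ℓ - 1) := ((hC _ hℓ).dvd_mul_left).mp h0
  have h1' : g ∣ X 1 ^ (ℓ - 1) := by
    have := ((hC _ hℓ).dvd_mul_left).mp h1
    exact ((hC _ hℓ).dvd_mul_left).mp this
  obtain ⟨i, -, hi⟩ := (dvd_prime_pow hX0 _).mp h0'
  rcases Nat.eq_zero_or_pos i with rfl | hi0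
  · rw [pow_zero] at hi
    exact (associated_one_iff_isUnit).mp hi
  · exfalso
    have h2 : (X 0 : MvPolynomial (Fin 2) K) ∣ X 1 ^ (ℓ - 1) :=
      ((dvd_pow_self _ hi0.ne').trans hi.symm.dvd).trans h1'
    obtain ⟨t, ht⟩ := hX0.dvd_of_dvd_pow h2
    have h3 := congrArg (eval (![0, 1] : Fin 2 → K)) ht
    simp at h3

theorem ev_one_zero_form {ℓ : ℕ} (hℓ : ℓ ≠ 0) : ev (1 : ℤ) 0 (form ℓ) = 1 := by
  rw [ev_form]
  simp [hℓ]

theorem map_form {R : Type*} [CommRing R] (ℓ : ℕ) (f : ℤ →+* R) :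
    (form ℓ).map f = X 0 ^ ℓ - C (ℓ : R) * X 1 ^ ℓ := by
  rw [form, map_sub, map_mul, map_pow, map_pow, map_X, map_X, map_C, map_natCast]

theorem form_horizontal {ℓ : ℕ} (hℓ : ℓ ≠ 0) (q : ℤ) (h : C q ∣ form ℓ) : IsUnit q := by
  obtain ⟨t, ht⟩ := h
  have h1 := congrArg (ev (1 : ℤ) 0) ht
  rw [ev_one_zero_form hℓ, map_mul] at h1
  have h2 : ev (1 : ℤ) 0 (C q) = q := by simp [ev]
  rw [h2] at h1
  exact IsUnit.of_mul_eq_one _ h1.symm

theorem form_reduced {ℓ : ℕ} (hℓ : ℓ ≠ 0) : Squarefree (form ℓ) := by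
  rintro g ⟨h, hg⟩
  have h1 : IsUnit (g.map (Int.castRingHom ℚ)) := by
    apply squarefree_field (K := ℚ) (ℓ := ℓ) (by exact_mod_cast hℓ)
    rw [← map_form ℓ (Int.castRingHom ℚ), hg]
    exact ⟨h.map (Int.castRingHom ℚ), by rw [map_mul, map_mul]⟩
  have h2 : g.totalDegree = 0 := by
    have h3 := (MvPolynomial.isUnit_iff_totalDegree_of_isReduced.mp h1).2
    rwa [totalDegree, support_map_of_injective _ (RingHom.injective_int (Int.castRingHom ℚ))] at h3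
  rw [MvPolynomial.totalDegree_eq_zero_iff_eq_C] at h2
  have h4 : C (coeff 0 g) ∣ form ℓ := by
    rw [← h2, hg, mul_assoc]
    exact dvd_mul_right _ _
  rw [h2]
  exact (form_horizontal hℓ _ h4).map C

theorem admissible {ℓ p : ℕ} (hℓ : ℓ.Prime) (hℓ2 : Odd ℓ) (hp : p.Prime) (hp2 : Odd p)
    (hpl : p ≠ ℓ) : Admissible (form ℓ) ℓ p {ℓ} where
  form := (mem_homogeneousSubmodule ℓ _).mp (form_mem ℓ)
  three_points := by
    have := hℓ.two_le
    obtain ⟨k, hk⟩ := hℓ2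
    omega
  reduced := form_reduced hℓ.ne_zero
  horizontal := form_horizontal hℓ.ne_zero
  prime := hp
  odd := hp2
  notMem := by simpa using hpl
  etale := by
    intro v hv hv2
    have : Fact v.Prime := ⟨hv⟩
    rw [map_form]
    apply squarefree_field
    intro h
    rw [ZMod.natCast_eq_zero_iff] at h
    apply hv2
    rw [Finset.mem_singleton]
    exact (Nat.prime_dvd_prime_iff_eq hv hℓ).mp h

end Pool.Agent.KimAff
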