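import Pool.Agent.H83.Kim.Path
import Pool.Agent.H83.Kim.Unip

/-!
# Weakly global points of affine schemes over `ℤ`

Let `𝒳 = Spec A` be an affine scheme over `ℤ`, so that `𝒳(R) = Pt A R` is the set of ring
homomorphisms `A →+* R` for every ring `R`, and let `b ∈ 𝒳(ℤ)` be a base point.  We define the sets
`𝒳(ℤ_p)_n ⊆ 𝒳(ℤ_p)` of weakly global points of level `n`.
-/

open scoped TensorProduct

noncomputable section

namespace Pool.Agent.KimAff

open Pool.Agent.H83.Kim (Cov Fib Path UQ Compatible Pt Auto)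

/-- An algebraic closure of `ℚ`. -/
abbrev Qbar : Type := AlgebraicClosure ℚ

/-- An algebraic closure of `ℚ_v`. -/
abbrev Qvbar (v : ℕ) [Fact v.Prime] : Type := AlgebraicClosure ℚ_[v]

/-- The absolute Galois group of `ℚ`. -/
abbrev GalQ : Type := Qbar ≃ₐ[ℚ] Qbar

/-- The absolute Galois group of `ℚ_v`. -/
abbrev GalQv (v : ℕ) [Fact v.Prime] : Type := Qvbar v ≃ₐ[ℚ_[v]] Qvbar v

/-- The embeddings of `ℚ̄` in `ℚ̄_v`. -/
abbrev Emb (v : ℕ) [Fact v.Prime] : Type := Qbar →+* Qvbar v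

/-- The restriction of `τ ∈ Gal(ℚ̄_v/ℚ_v)` to the subfield `ℚ̄` (embedded by `ι`) is `σ`. -/
def Restr {v : ℕ} [Fact v.Prime] (ι : Emb v) (σ : GalQ) (τ : GalQv v) : Prop :=
  ∀ z, τ (ι z) = ι (σ z)

section points

variable (A : Type) [CommRing A]

/-- The ring of functions `ℚ̄ ⊗ A` of `X̄ = 𝒳 ×_ℤ Spec ℚ̄`. -/
def Bar : Type := Qbar ⊗[ℤ] A

instance Bar.instCommRing : CommRing (Bar A) := Algebra.TensorProduct.instCommRing

/-- The action of `Gal(ℚ̄/ℚ)` on `X̄`, i.e. on the first factor of `ℚ̄ ⊗ A`. -/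
def galBar (σ : GalQ) : Auto (Bar A) :=
  (Algebra.TensorProduct.congr σ.toRingEquiv.toIntAlgEquiv (AlgEquiv.refl : A ≃ₐ[ℤ] A)).toRingEquiv

variable {A}

/-- The element `z ⊗ a` of `ℚ̄ ⊗ A`. -/
def Bar.tmul (z : Qbar) (a : A) : Bar A := z ⊗ₜ[ℤ] a

theorem Bar.ind {P : Bar A → Prop} (h0 : P 0) (ht : ∀ z a, P (Bar.tmul z a))
    (ha : ∀ s t, P s → P t → P (s + t)) (t : Bar A) : P t :=
  TensorProduct.induction_on t h0 ht ha

theorem galBar_tmul (σ : GalQ) (z : Qbar) (a : A) :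
    galBar A σ (Bar.tmul z a) = Bar.tmul (σ z) a := rfl

/-- The geometric point of `X̄` given by a point `x ∈ 𝒳(Ω)` and an embedding `ι : ℚ̄ → Ω`. -/
def gpt {Ω : Type} [Field Ω] (ι : Pt Qbar Ω) (x : Pt A Ω) : Pt (Bar A) Ω :=
  (Algebra.TensorProduct.lift ι.toIntAlgHom x.toIntAlgHom fun _ _ => Commute.all _ _).toRingHom

theorem gpt_tmul {Ω : Type} [Field Ω] (ι : Qbar →+* Ω) (x : A →+* Ω) (z : Qbar) (a : A) :
    gpt ι x (Bar.tmul z a) = ι z * x a := rfl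

theorem Bar_hom_ext {R : Type*} [CommRing R] {g h : Bar A →+* R}
    (e : ∀ (z : Qbar) (a : A), g (Bar.tmul z a) = h (Bar.tmul z a)) : g = h := by
  refine RingHom.ext fun t => ?_
  induction t using Bar.ind with
  | h0 => rw [map_zero, map_zero]
  | ha s t hs ht => rw [map_add, map_add, hs, ht]
  | ht z a => exact e z a

theorem gpt_galBar {Ω : Type} [Field Ω] (ι : Qbar →+* Ω) (x : A →+* Ω) (σ : GalQ) (τ : Ω ≃+* Ω)
    (hι : ∀ z, τ (ι z) = ι (σ z)) (hx : ∀ a, τ (x a) = x a) :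
    Compatible (gpt ι x) (galBar A σ) τ := by
  intro t
  have h : (τ : Ω →+* Ω).comp (gpt ι x) = (gpt ι x).comp (galBar A σ : Bar A →+* Bar A) := by
    apply Bar_hom_ext
    intro z a
    rw [RingHom.comp_apply, RingHom.comp_apply, RingEquiv.coe_toRingHom, RingEquiv.coe_toRingHom,
      galBar_tmul, gpt_tmul, gpt_tmul, map_mul, hι, hx]
  exact RingHom.congr_fun h t

end points

section

variable {A : Type} [CommRing A] (b : Pt A ℤ)

/-- The base point `b ∈ 𝒳(ℤ)`, as a geometric point of `X̄` with values in `ℚ̄`. -/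
def basePt : Pt (Bar A) Qbar := gpt (RingHom.id Qbar) ((Int.castRingHom Qbar).comp b)

/-- The étale fundamental group `π₁(X̄, b)`. -/
abbrev Pi1 : Type _ := Path (basePt b) (basePt b)

theorem basePt_galBar (σ : GalQ) : Compatible (basePt b) (galBar A σ) σ.toRingEquiv :=
  gpt_galBar (RingHom.id Qbar) _ σ σ.toRingEquiv (fun _ => rfl) (fun _ => map_intCast _ _)

/-- The action of `Gal(ℚ̄/ℚ)` on `π₁(X̄, b)`. -/
def galPi1 (σ : GalQ) : Pi1 b →ₜ* Pi1 b :=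
  Path.actHom (galBar A σ) σ.toRingEquiv (basePt_galBar b σ)

variable (p n : ℕ)

/-- The group `U_n(ℚ_p)`, where `U` is the `ℚ_p`-pro-unipotent completion of `π₁(X̄, b)`. -/
def Un : Type _ := UQ p n (Pi1 b)

instance Un.instGroup : Group (Un b p n) := UQ.instGroup p n

instance Un.instTop : TopologicalSpace (Un b p n) := UQ.instTop p n

/-- The action of `Gal(ℚ̄/ℚ)` on `U_n(ℚ_p)`. -/
def galUn (σ : GalQ) : Un b p n →* Un b p n := UQ.map p n (galPi1 b σ)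

/-- Continuous `1`-cocycles of `Gal(ℚ̄/ℚ)` with values in `U_n(ℚ_p)`. -/
structure IsCocycle (c : GalQ → Un b p n) : Prop where
  continuous : Continuous c
  cocycle : ∀ σ τ : GalQ, c (σ * τ) = c σ * galUn b p n σ (c τ)

/-- The geometric point of `X̄` with values in an algebraic closure of `ℚ_v` given by
`x ∈ 𝒳(ℚ_v)` and an embedding `ι` of `ℚ̄`. -/
def locPt {v : ℕ} [Fact v.Prime] (ι : Emb v) (x : Pt A ℚ_[v]) : Pt (Bar A) (Qvbar v) :=
  gpt ι ((algebraMap ℚ_[v] (Qvbar v)).comp x)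

theorem locPt_galBar {v : ℕ} [Fact v.Prime] (ι : Emb v) (x : Pt A ℚ_[v]) (σ : GalQ)
    (τ : GalQv v) (h : Restr ι σ τ) : Compatible (locPt ι x) (galBar A σ) τ.toRingEquiv :=
  gpt_galBar ι _ σ τ.toRingEquiv h (fun a => τ.commutes (x a))

/-- The étale paths from `b` to `x ∈ 𝒳(ℚ_v)`. -/
abbrev LocPath {v : ℕ} [Fact v.Prime] (ι : Emb v) (x : Pt A ℚ_[v]) : Type _ :=
  Path (basePt b) (locPt ι x)

/-- The action of an element `τ` of `Gal(ℚ̄_v/ℚ_v)`, whose restriction to `ℚ̄` is `σ`, on the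
étale paths from `b` to `x ∈ 𝒳(ℚ_v)`. -/
def pathAct {v : ℕ} [Fact v.Prime] {ι : Emb v} {x : Pt A ℚ_[v]} (σ : GalQ)
    (τ : GalQv v) (h : Restr ι σ τ) (γ : LocPath b ι x) : LocPath b ι x :=
  Path.act (galBar A σ) σ.toRingEquiv τ.toRingEquiv (basePt_galBar b σ) (locPt_galBar ι x σ τ h) γ

/-- The element `γ⁻¹ ∘ τ(γ)` of `π₁(X̄, b)`, as an element of `U_n(ℚ_p)`; here `γ` is an étale path
from `b` to `x`, and `σ` is the restriction of `τ` to `ℚ̄`. -/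
def pathCoc {v : ℕ} [Fact v.Prime] {ι : Emb v} {x : Pt A ℚ_[v]} (γ : LocPath b ι x) (σ : GalQ)
    (τ : GalQv v) (h : Restr ι σ τ) : Un b p n :=
  UQ.ofFun p n (γ.diff (pathAct b σ τ h γ))

/-- `loc_v [c] = j_v(x)` in `H¹(G_v, U_n)`: the restriction to `G_v = Gal(ℚ̄_v/ℚ_v)` (embedded in
`Gal(ℚ̄/ℚ)` by means of `ι`) of the cocycle `c` is cohomologous to the cocycle
`τ ↦ γ⁻¹ ∘ τ(γ)` of the push-out to `U_n` of the torsor of étale paths `γ` from `b` to `x`. -/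
def LocEq {v : ℕ} [Fact v.Prime] (ι : Emb v) (c : GalQ → Un b p n) (x : Pt A ℚ_[v]) : Prop :=
  ∃ (γ : LocPath b ι x) (u : Un b p n), ∀ (σ : GalQ) (τ : GalQv v) (h : Restr ι σ τ),
    c σ = u⁻¹ * pathCoc b p n γ σ τ h * galUn b p n σ u

/-- The map `𝒳(ℤ_v) → 𝒳(ℚ_v)`. -/
def toQv {v : ℕ} [Fact v.Prime] (x : Pt A ℤ_[v]) : Pt A ℚ_[v] := (algebraMap ℤ_[v] ℚ_[v]).comp x

/-- The set `𝒳(ℤ_p)_n` of weakly global points of level `n`: the points `z ∈ 𝒳(ℤ_p)` for which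
there is a class `c` in `H¹(Gal(ℚ̄/ℚ), U_n)` such that `loc_v c ∈ j_v(𝒳(ℤ_v))` for every prime
`v ≠ p` and `loc_p c = j_p(z)`. -/
def weaklyGlobal [Fact p.Prime] (ι : ∀ (v : ℕ) [Fact v.Prime], Emb v) : Set (Pt A ℤ_[p]) :=
  {z | ∃ c : GalQ → Un b p n, IsCocycle b p n c ∧
    (∀ (v : ℕ) [Fact v.Prime], v ≠ p → ∃ x : Pt A ℤ_[v], LocEq b p n (ι v) c (toQv x)) ∧
    LocEq b p n (ι p) c (toQv z)}

variable (A) in
/-- The image of `𝒳(ℤ)` in `𝒳(ℤ_p)`. -/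
def integralPts [Fact p.Prime] : Set (Pt A ℤ_[p]) :=
  Set.range fun z : Pt A ℤ => (Int.castRingHom ℤ_[p]).comp z

end

end Pool.Agent.KimAff
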