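import Mathlib

/-!
# Elements of `K ⊗ N`, and injectivity of `K ⊗ A → K⟦X⟧`
-/

open scoped TensorProduct

noncomputable section

namespace Pool.Agent.KimAff

/-- The homomorphism `z ⊗ a ↦ f z * g a`. -/
def liftRing {K A S : Type*} [CommRing K] [CommRing A] [CommRing S] (f : K →+* S) (g : A →+* S) :
    K ⊗[ℤ] A →+* S :=
  (Algebra.TensorProduct.lift f.toIntAlgHom g.toIntAlgHom fun _ _ => Commute.all _ _).toRingHom

theorem liftRing_tmul {K A S : Type*} [CommRing K] [CommRing A] [CommRing S] (f : K →+* S)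
    (g : A →+* S) (z : K) (a : A) : liftRing f g (z ⊗ₜ a) = f z * g a := rfl

theorem exists_indep_sum {K : Type*} [Field K] [CharZero K] {N : Type*} [AddCommGroup N]
    (t : K ⊗[ℤ] N) : ∃ (r : ℕ) (β : Fin r → K) (m : Fin r → N), LinearIndependent ℤ β ∧
      t = ∑ i, β i ⊗ₜ m i := by
  obtain ⟨M', hfin, h⟩ := TensorProduct.exists_finite_submodule_left_of_setFinite {t}
    (Set.finite_singleton t)
  obtain ⟨s, hs⟩ := h (Set.mem_singleton t)
  have : Module.IsTorsionFree ℤ K := inferInstance
  have : Module.IsTorsionFree ℤ M' := inferInstance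
  have hfree : Module.Free ℤ M' := inferInstance
  let b := Module.finBasis ℤ M'
  obtain ⟨c, hc⟩ := TensorProduct.eq_repr_basis_left b (x := s)
  refine ⟨_, fun i => (b i : K), c, ?_, ?_⟩
  · exact b.linearIndependent.map' M'.subtype (Submodule.ker_subtype _)
  · rw [← hs, ← hc, Finsupp.sum_fintype _ _ (by simp), map_sum]
    rfl

/-- If `A → ℤ⟦X⟧` is injective, so is `K ⊗ A → K⟦X⟧`. -/
theorem tensor_injective {K : Type*} [Field K] [CharZero K] {A : Type*} [CommRing A]
    (B : A →+* PowerSeries ℤ) (hB : Function.Injective B) (F : K ⊗[ℤ] A →+* PowerSeries K)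
    (hF : ∀ (z : K) (a : A), F (z ⊗ₜ a) = PowerSeries.C z * (B a).map (Int.castRingHom K)) :
    Function.Injective F := by
  rw [injective_iff_map_eq_zero]
  intro t ht
  obtain ⟨r, β, m, hβ, rfl⟩ := exists_indep_sum t
  have hm : ∀ i, m i = 0 := by
    intro i
    apply hB
    rw [map_zero]
    ext k
    rw [map_sum] at ht
    have h1 := congrArg (PowerSeries.coeff k) ht
    rw [map_sum, map_zero] at h1
    have h2 : ∑ j, (PowerSeries.coeff k (B (m j))) • β j = 0 := by
      rw [← h1]
      refine Finset.sum_congr rfl fun j _ => ?_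
      rw [hF, PowerSeries.coeff_C_mul, PowerSeries.coeff_map, zsmul_eq_mul, mul_comm]
      rfl
    rw [map_zero]
    exact Fintype.linearIndependent_iff.mp hβ _ h2 i
  simp [hm]

end Pool.Agent.KimAff
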