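import Pool.Agent.H8.KimA.Form
import Pool.Agent.H8.KimA.Tensor
import Pool.Agent.H8.KimA.Defs

/-!
# The ring of functions on the geometric fibre is a principal ideal domain
-/

open scoped TensorProduct
open PowerSeries

noncomputable section

namespace Pool.Agent.KimAff

attribute [local instance] MvPolynomial.gradedAlgebra

section scale

variable {R : Type*} [CommRing R]

theorem ev_scale {d : ℕ} {P : MvPolynomial (Fin 2) ℤ}
    (hP : P ∈ MvPolynomial.homogeneousSubmodule (Fin 2) ℤ d) (c x y : R) :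
    ev (c * x) (c * y) P = c ^ d * ev x y P := by
  rw [MvPolynomial.mem_homogeneousSubmodule] at hP
  rw [ev, ev, MvPolynomial.coe_eval₂Hom, MvPolynomial.coe_eval₂Hom, MvPolynomial.eval₂_eq',
    MvPolynomial.eval₂_eq', Finset.mul_sum]
  refine Finset.sum_congr rfl fun m hm => ?_
  have hd : m 0 + m 1 = d := by
    have := hP (MvPolynomial.mem_support_iff.mp hm)
    rw [Finsupp.weight_apply, Finsupp.sum_fintype _ _ (by simp)] at this
    simpa using this
  rw [Fin.prod_univ_two, Fin.prod_univ_two, ← hd]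
  simp only [Matrix.cons_val_zero, Matrix.cons_val_one]
  ring

end scale

/-- The functions `x^(ℓ-i) y^i / (x^ℓ - ℓ y^ℓ)`. -/
def gen (ℓ i : ℕ) (hi : i ≤ ℓ) : Coord ℓ :=
  quot ℓ 1 (MvPolynomial.X 0 ^ (ℓ - i) * MvPolynomial.X 1 ^ i) (by
    rw [MvPolynomial.mem_homogeneousSubmodule]
    have h1 := (MvPolynomial.isHomogeneous_X_pow (R := ℤ) (0 : Fin 2) (ℓ - i)).mul
      (MvPolynomial.isHomogeneous_X_pow (R := ℤ) (1 : Fin 2) i)
    have h2 : ℓ - i + i = 1 • ℓ := by rw [one_smul]; omega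
    rw [h2] at h1
    exact h1)

theorem point_gen {ℓ : ℕ} {R : Type*} [CommRing R] (x y : R) (h : IsUnit (x ^ ℓ - ℓ * y ^ ℓ))
    (i : ℕ) (hi : i ≤ ℓ) :
    point x y h (gen ℓ i hi) * (x ^ ℓ - ℓ * y ^ ℓ) = x ^ (ℓ - i) * y ^ i := by
  have h1 := point_quot x y h 1 (MvPolynomial.X 0 ^ (ℓ - i) * MvPolynomial.X 1 ^ i) (by
    rw [MvPolynomial.mem_homogeneousSubmodule]
    have h1 := (MvPolynomial.isHomogeneous_X_pow (R := ℤ) (0 : Fin 2) (ℓ - i)).mul
      (MvPolynomial.isHomogeneous_X_pow (R := ℤ) (1 : Fin 2) i)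
    have h2 : ℓ - i + i = 1 • ℓ := by rw [one_smul]; omega
    rw [h2] at h1
    exact h1)
  rw [pow_one] at h1
  rw [gen, h1]
  simp [ev]

section pid

variable (K : Type) [Field K] [CharZero K] (ℓ : ℕ) (hℓ : ℓ ≠ 0)

/-- The expansion at `[1 : 0]` of functions on the fibre over `K`. -/
def theta : K ⊗[ℤ] Coord ℓ →+* K⟦X⟧ :=
  liftRing C ((PowerSeries.map (Int.castRingHom K)).comp (expand ℓ hℓ))

theorem theta_tmul (z : K) (a : Coord ℓ) :
    theta K ℓ hℓ (z ⊗ₜ a) = C z * (expand ℓ hℓ a).map (Int.castRingHom K) := rfl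

theorem theta_injective : Function.Injective (theta K ℓ hℓ) :=
  tensor_injective (expand ℓ hℓ) (expand_injective ℓ hℓ) _ (theta_tmul K ℓ hℓ)

theorem map_expand : (PowerSeries.map (Int.castRingHom K)).comp (expand ℓ hℓ) =
    point 1 X (isUnit_one_sub ℓ hℓ) := by
  rw [expand, comp_point _ _ _ _ (by simpa using isUnit_one_sub (R := K) ℓ hℓ)]
  congr 1
  · simp
  · simp

theorem theta_tmul' (z : K) (a : Coord ℓ) :
    theta K ℓ hℓ (z ⊗ₜ a) = C z * point 1 X (isUnit_one_sub ℓ hℓ) a := by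
  rw [theta_tmul, ← map_expand K ℓ hℓ]
  rfl

variable {K}
variable (α : K) (hα : α ^ ℓ = ℓ)

/-- The equation of the complement in the coordinate `y / (x - α y)`. -/
def gpol : Polynomial K := (1 + Polynomial.C α * Polynomial.X) ^ ℓ -
  Polynomial.C (ℓ : K) * Polynomial.X ^ ℓ

theorem isUnit_one_sub_X : IsUnit (1 - C α * X : K⟦X⟧) := by
  rw [PowerSeries.isUnit_iff_constantCoeff]
  simp

/-- The inverse of `1 - α u`. -/
def linInv : K⟦X⟧ := ((isUnit_one_sub_X α).unit⁻¹ : (K⟦X⟧)ˣ)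

theorem linInv_mul : linInv α * (1 - C α * X) = 1 := (isUnit_one_sub_X α).val_inv_mul

/-- The coordinate `y / (x - α y)` as a power series in `u = y / x`. -/
def sser : K⟦X⟧ := linInv α * X

theorem one_add_sser : 1 + C α * sser α = linInv α := by
  rw [sser]
  linear_combination (-1 : K⟦X⟧) * linInv_mul α

/-- Substitution of `sser`. -/
def phi0 : Polynomial K →+* K⟦X⟧ := Polynomial.eval₂RingHom C (sser α)

include hα in
theorem phi0_gpol : phi0 α (gpol ℓ α) * (1 - C α * X) ^ ℓ =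
    1 ^ ℓ - (ℓ : K⟦X⟧) * X ^ ℓ := by
  have h1 : phi0 α (gpol ℓ α) = linInv α ^ ℓ - (ℓ : K⟦X⟧) * sser α ^ ℓ := by
    rw [phi0, gpol, map_sub, map_pow, map_add, map_mul, map_mul, map_pow, map_one]
    simp only [Polynomial.coe_eval₂RingHom, Polynomial.eval₂_C, Polynomial.eval₂_X, one_add_sser]
    simp
  rw [h1, sub_mul, mul_assoc, ← mul_pow, ← mul_pow, linInv_mul, sser, mul_right_comm, linInv_mul,
    one_mul]

include hα hℓ in
theorem isUnit_phi0_gpol : IsUnit (phi0 α (gpol ℓ α)) := by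
  have h1 := phi0_gpol ℓ α hα
  have h2 : IsUnit (phi0 α (gpol ℓ α) * (1 - C α * X) ^ ℓ) := by
    rw [h1]; exact isUnit_one_sub ℓ hℓ
  exact isUnit_of_mul_isUnit_left h2

/-- The inclusion of the functions on the fibre in the power series ring, for the coordinate
`y / (x - α y)`. -/
def phi : Localization.Away (gpol ℓ α) →+* K⟦X⟧ :=
  IsLocalization.Away.lift (gpol ℓ α) (isUnit_phi0_gpol ℓ hℓ α hα)

theorem phi_algebraMap (P : Polynomial K) :
    phi ℓ hℓ α hα (algebraMap _ _ P) = phi0 α P :=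
  IsLocalization.Away.lift_eq (gpol ℓ α) (isUnit_phi0_gpol ℓ hℓ α hα) P

theorem C_mem_range (z : K) : C z ∈ (theta K ℓ hℓ).range :=
  ⟨z ⊗ₜ 1, by rw [theta_tmul, map_one, map_one, mul_one]⟩

theorem gen_mul (i : ℕ) (hi : i ≤ ℓ) : theta K ℓ hℓ (1 ⊗ₜ gen ℓ i hi) *
    (1 ^ ℓ - (ℓ : K⟦X⟧) * X ^ ℓ) = X ^ i := by
  rw [theta_tmul', map_one, one_mul, point_gen, one_pow, one_mul]

theorem gen_mul' (z : K) (i : ℕ) (hi : i ≤ ℓ) : theta K ℓ hℓ (z ⊗ₜ gen ℓ i hi) *
    (1 ^ ℓ - (ℓ : K⟦X⟧) * X ^ ℓ) = C z * X ^ i := by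
  rw [theta_tmul', mul_assoc, point_gen, one_pow, one_mul]

theorem mem_range_of_mul {s : K⟦X⟧} {m : ℕ} (hm : m ≤ ℓ) (c : ℕ → K)
    (hs : s * (1 ^ ℓ - (ℓ : K⟦X⟧) * X ^ ℓ) = ∑ i ∈ Finset.range (m + 1), C (c i) * X ^ i) :
    s ∈ (theta K ℓ hℓ).range := by
  refine ⟨∑ i ∈ Finset.attach (Finset.range (m + 1)), c i ⊗ₜ gen ℓ i
    ((Nat.lt_succ_iff.mp (Finset.mem_range.mp i.2)).trans hm), ?_⟩
  apply (isUnit_one_sub ℓ hℓ (R := K)).mul_right_cancel
  rw [hs, map_sum, Finset.sum_mul, ← Finset.sum_attach (Finset.range (m + 1))]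
  refine Finset.sum_congr rfl fun i _ => ?_
  rw [gen_mul']

include hα in
theorem sser_mem_range : sser α ∈ (theta K ℓ hℓ).range := by
  apply mem_range_of_mul ℓ hℓ le_rfl (fun i => if i = 0 then 0 else α ^ (i - 1))
  have h1 : (1 - C α * X : K⟦X⟧) * ∑ j ∈ Finset.range ℓ, (C α * X) ^ j =
      1 ^ ℓ - (ℓ : K⟦X⟧) * X ^ ℓ := by
    rw [mul_neg_geom_sum, mul_pow, ← map_pow, hα, map_natCast, one_pow]
  have h2 : sser α * (1 ^ ℓ - (ℓ : K⟦X⟧) * X ^ ℓ) =
      X * ∑ j ∈ Finset.range ℓ, (C α * X) ^ j := by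
    rw [← h1, sser]
    linear_combination (X * ∑ j ∈ Finset.range ℓ, (C α * X) ^ j) * linInv_mul α
  rw [h2, Finset.sum_range_succ', Finset.mul_sum]
  simp only [if_pos, map_zero, zero_mul, add_zero]
  refine Finset.sum_congr rfl fun j _ => ?_
  rw [if_neg (Nat.succ_ne_zero j), Nat.add_sub_cancel, map_pow]
  ring

include hα in
theorem inv_mem_range {s : K⟦X⟧} (hs : s * phi0 α (gpol ℓ α) = 1) :
    s ∈ (theta K ℓ hℓ).range := by
  apply mem_range_of_mul ℓ hℓ le_rfl (fun i => (ℓ.choose i : K) * (-α) ^ i)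
  rw [← phi0_gpol ℓ α hα, ← mul_assoc, hs, one_mul, sub_eq_neg_add, add_pow]
  refine Finset.sum_congr rfl fun i _ => ?_
  rw [one_pow, mul_one, map_mul, map_pow, map_neg, map_natCast]
  ring

theorem range_phi_le : (phi ℓ hℓ α hα).range ≤ (theta K ℓ hℓ).range := by
  have h0 : ∀ P : Polynomial K, phi0 α P ∈ (theta K ℓ hℓ).range := by
    intro P
    induction P using Polynomial.induction_on with
    | C a =>
      rw [phi0, Polynomial.coe_eval₂RingHom, Polynomial.eval₂_C]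
      exact C_mem_range ℓ hℓ a
    | add P Q hP hQ =>
      rw [map_add]
      exact Subring.add_mem _ hP hQ
    | monomial n a _ =>
      rw [map_mul, map_pow, phi0, Polynomial.coe_eval₂RingHom, Polynomial.eval₂_C,
        Polynomial.eval₂_X]
      exact Subring.mul_mem _ (C_mem_range ℓ hℓ a)
        (Subring.pow_mem _ (sser_mem_range ℓ hℓ α hα) _)
  rintro _ ⟨t, rfl⟩
  obtain ⟨P, ⟨_, k, rfl⟩, rfl⟩ := IsLocalization.exists_mk'_eq (Submonoid.powers (gpol ℓ α)) t
  obtain ⟨w, hw⟩ := isUnit_iff_exists_inv'.mp (isUnit_phi0_gpol ℓ hℓ α hα)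
  have h1 : phi ℓ hℓ α hα (IsLocalization.mk' _ P
      (⟨gpol ℓ α ^ k, k, rfl⟩ : Submonoid.powers (gpol ℓ α))) = phi0 α P * w ^ k := by
    have h2 := congrArg (phi ℓ hℓ α hα) (IsLocalization.mk'_spec (Localization.Away (gpol ℓ α)) P
      (⟨gpol ℓ α ^ k, k, rfl⟩ : Submonoid.powers (gpol ℓ α)))
    rw [map_mul, phi_algebraMap, phi_algebraMap, map_pow] at h2
    rw [← h2, mul_assoc, ← mul_pow, mul_comm _ w, hw, one_pow, mul_one]
  rw [h1]
  exact Subring.mul_mem _ (h0 P) (Subring.pow_mem _ (inv_mem_range ℓ hℓ α hα hw) _)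

theorem range_theta_le : (theta K ℓ hℓ).range ≤ (phi ℓ hℓ α hα).range := by
  obtain ⟨w, hw⟩ := isUnit_iff_exists_inv'.mp (isUnit_phi0_gpol ℓ hℓ α hα)
  have hwm : w ∈ (phi ℓ hℓ α hα).range := by
    refine ⟨IsLocalization.Away.invSelf (gpol ℓ α), ?_⟩
    have h1 := congrArg (phi ℓ hℓ α hα)
      (IsLocalization.Away.mul_invSelf (S := Localization.Away (gpol ℓ α)) (gpol ℓ α))
    rw [map_mul, map_one, phi_algebraMap] at h1
    have h2 : w * phi0 α (gpol ℓ α) * phi ℓ hℓ α hα (IsLocalization.Away.invSelf (gpol ℓ α)) = w := by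
      rw [mul_assoc, h1, mul_one]
    rw [hw, one_mul] at h2
    exact h2
  rintro _ ⟨t, rfl⟩
  induction t using TensorProduct.induction_on with
  | zero => rw [map_zero]; exact Subring.zero_mem _
  | add s t hs ht => rw [map_add]; exact Subring.add_mem _ hs ht
  | tmul z a =>
    obtain ⟨n, P, hP, rfl⟩ := quot_surjective a
    have h1 : theta K ℓ hℓ (z ⊗ₜ quot ℓ n P hP) = C z * phi0 α (ev (1 + Polynomial.C α *
        Polynomial.X) Polynomial.X P) * w ^ n := by
      rw [theta_tmul', mul_assoc]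
      congr 1
      apply ((isUnit_one_sub ℓ hℓ (R := K)).pow n).mul_right_cancel
      have h3 : w ^ n * (1 ^ ℓ - (ℓ : K⟦X⟧) * X ^ ℓ) ^ n = (1 - C α * X) ^ (n • ℓ) := by
        rw [← mul_pow, ← phi0_gpol ℓ α hα, ← mul_assoc, hw, one_mul, ← pow_mul, mul_comm ℓ n,
          smul_eq_mul]
      rw [point_quot, comp_ev, mul_assoc, h3, mul_comm, ← ev_scale hP]
      congr 2
      · rw [map_add, map_one, map_mul, phi0, Polynomial.coe_eval₂RingHom, Polynomial.eval₂_C,
          Polynomial.eval₂_X, one_add_sser, mul_comm, linInv_mul]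
      · rw [phi0, Polynomial.coe_eval₂RingHom, Polynomial.eval₂_X, sser, ← mul_assoc,
          mul_comm _ (linInv α), linInv_mul, one_mul]
    rw [h1]
    refine Subring.mul_mem _ (Subring.mul_mem _ ?_ ⟨_, phi_algebraMap ℓ hℓ α hα _⟩)
      (Subring.pow_mem _ hwm _)
    exact ⟨algebraMap _ _ (Polynomial.C z), by
      rw [phi_algebraMap, phi0, Polynomial.coe_eval₂RingHom, Polynomial.eval₂_C]⟩

theorem away_isPrincipalIdealRing (g : Polynomial K) :
    IsPrincipalIdealRing (Localization.Away g) := by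
  constructor
  intro J
  obtain ⟨f, hf⟩ := (IsPrincipalIdealRing.principal
    (J.comap (algebraMap (Polynomial K) (Localization.Away g)))).principal
  refine ⟨algebraMap _ _ f, ?_⟩
  have h1 := IsLocalization.map_under (Submonoid.powers g) (Localization.Away g) J
  rw [Ideal.under_def, hf, Ideal.submodule_span_eq, Ideal.map_span, Set.image_singleton] at h1
  exact h1.symm

include hα hℓ in
theorem isPrincipalIdealRing_tensor : IsPrincipalIdealRing (K ⊗[ℤ] Coord ℓ) := by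
  have h0 := away_isPrincipalIdealRing (gpol ℓ α)
  have hle := range_phi_le ℓ hℓ α hα
  have hge := range_theta_le ℓ hℓ α hα
  let f : Localization.Away (gpol ℓ α) →+* (theta K ℓ hℓ).range :=
    (phi ℓ hℓ α hα).codRestrict _ fun t => hle ⟨t, rfl⟩
  have hf : Function.Surjective f := by
    rintro ⟨s, hs⟩
    obtain ⟨t, ht⟩ := hge hs
    exact ⟨t, Subtype.ext ht⟩
  have h1 : IsPrincipalIdealRing (theta K ℓ hℓ).range := IsPrincipalIdealRing.of_surjective f hf
  let e := RingEquiv.ofBijective (theta K ℓ hℓ).rangeRestrict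
    ⟨fun a b h => theta_injective K ℓ hℓ (congrArg Subtype.val h),
      (theta K ℓ hℓ).rangeRestrict_surjective⟩
  exact IsPrincipalIdealRing.of_surjective (e.symm : (theta K ℓ hℓ).range →+* K ⊗[ℤ] Coord ℓ)
    e.symm.surjective

end pid

theorem bar_isDomain (ℓ : ℕ) (hℓ : ℓ ≠ 0) : IsDomain (Bar (Coord ℓ)) :=
  (theta_injective Qbar ℓ hℓ).isDomain

theorem bar_isPrincipalIdealRing (ℓ : ℕ) (hℓ : ℓ ≠ 0) : IsPrincipalIdealRing (Bar (Coord ℓ)) := by
  obtain ⟨α, hα⟩ := IsAlgClosed.exists_pow_nat_eq (ℓ : Qbar) (Nat.pos_of_ne_zero hℓ)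
  exact isPrincipalIdealRing_tensor ℓ hℓ α hα

end Pool.Agent.KimAff
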