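import Pool.Agent.H8.KimA.Subst
import Pool.Agent.H8.KimA.Pid

/-!
# The charts `s = a² u / (1 - a u)` at the prime `ℓ`, where `a^ℓ = ℓ`
-/

open PowerSeries

noncomputable section

namespace Pool.Agent.KimAff

open Pool.Agent.H83.Kim (BO evalBO C_mem_BO X_mem_BO evalBO_C evalBO_X)

attribute [local instance] MvPolynomial.gradedAlgebra

variable {ℓ : ℕ} [Fact ℓ.Prime]

section basics

variable (c : PadicAlgCl ℓ)

/-- The inverse of `1 + c X`. -/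
def inv1 : (PadicAlgCl ℓ)⟦X⟧ := (1 + C c * X)⁻¹

theorem inv1_mul : inv1 c * (1 + C c * X) = 1 := by
  apply PowerSeries.inv_mul_cancel
  simp

theorem inv1_mem_IK {K : IntermediateField ℚ_[ℓ] (PadicAlgCl ℓ)} (hc : c ∈ OK K) :
    inv1 c ∈ IK K := by
  obtain ⟨h, hh, hh1⟩ := exists_inv_mem_IK (K := K) (g := 1 + C c * X)
    ((IK K).add_mem (IK K).one_mem ((IK K).mul_mem (C_mem_IK hc) X_mem_IK)) (by simp)
  have : h = inv1 c := by
    calc h = h * (inv1 c * (1 + C c * X)) := by rw [inv1_mul, mul_one]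
      _ = inv1 c * (h * (1 + C c * X)) := by ring
      _ = inv1 c := by rw [hh1, mul_one]
  rwa [← this]

end basics

variable (a a' : PadicAlgCl ℓ)

/-- The power series `u = s / (a² + a s)`. -/
def Ua : (PadicAlgCl ℓ)⟦X⟧ := C (a⁻¹ ^ 2) * X * inv1 a⁻¹

theorem Ua_spec : (1 + C a⁻¹ * X) * Ua a = C (a⁻¹ ^ 2) * X := by
  rw [Ua]
  linear_combination (C (a⁻¹ ^ 2) * X) * inv1_mul a⁻¹

theorem constantCoeff_Ua : constantCoeff (Ua a) = 0 := by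
  simp [Ua]

theorem hasSubst_Ua : HasSubst (Ua a) := HasSubst.of_constantCoeff_zero' (constantCoeff_Ua a)

/-- The change of chart. -/
def psi : (PadicAlgCl ℓ)⟦X⟧ := C (a' ^ 2 * a⁻¹ ^ 2) * X * inv1 ((a - a') * a⁻¹ ^ 2)

theorem constantCoeff_psi : constantCoeff (psi a a') = 0 := by
  simp [psi]

theorem hasSubst_psi : HasSubst (psi a a') :=
  HasSubst.of_constantCoeff_zero' (constantCoeff_psi a a')

theorem Ua_subst_psi (ha : a ≠ 0) (ha' : a' ≠ 0) : (Ua a').subst (psi a a') = Ua a := by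
  have hs := hasSubst_psi a a'
  have h1 := congrArg (substAlgHom (R := PadicAlgCl ℓ) hs) (Ua_spec a')
  have hC : ∀ c : PadicAlgCl ℓ, substAlgHom (R := PadicAlgCl ℓ) hs (C c) = C c := by
    intro c
    rw [coe_substAlgHom]
    exact subst_C c
  rw [map_mul, map_add, map_one, map_mul, map_mul, hC, hC, substAlgHom_X, coe_substAlgHom] at h1
  have h2 : (1 + C a'⁻¹ * psi a a') ≠ 0 := by
    intro h
    have := congrArg constantCoeff h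
    rw [map_add, map_mul, constantCoeff_psi, mul_zero, add_zero, map_one, map_zero] at this
    exact one_ne_zero this
  apply mul_left_cancel₀ h2
  rw [h1]
  -- cancel the two denominators
  have h3 : (1 + C ((a - a') * a⁻¹ ^ 2) * X : (PadicAlgCl ℓ)⟦X⟧) ≠ 0 := by
    intro h
    have := congrArg constantCoeff h
    simp at this
  have h4 : (1 + C a⁻¹ * X : (PadicAlgCl ℓ)⟦X⟧) ≠ 0 := by
    intro h
    have := congrArg constantCoeff h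
    simp at this
  have h5 : psi a a' * (1 + C ((a - a') * a⁻¹ ^ 2) * X) = C (a' ^ 2 * a⁻¹ ^ 2) * X := by
    rw [psi, mul_assoc, inv1_mul, mul_one]
  have h6 := Ua_spec a
  apply mul_left_cancel₀ h3
  apply mul_left_cancel₀ h4
  have e1 : (C (a' ^ 2 * a⁻¹ ^ 2) : (PadicAlgCl ℓ)⟦X⟧) = C a' ^ 2 * C a⁻¹ ^ 2 := by
    rw [map_mul, map_pow, map_pow]
  have e2 : (C ((a - a') * a⁻¹ ^ 2) : (PadicAlgCl ℓ)⟦X⟧) = (C a - C a') * C a⁻¹ ^ 2 := by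
    rw [map_mul, map_sub, map_pow]
  have e3 : (C a * C a⁻¹ : (PadicAlgCl ℓ)⟦X⟧) = 1 := by
    rw [← map_mul, mul_inv_cancel₀ ha, map_one]
  have e4 : (C a' * C a'⁻¹ : (PadicAlgCl ℓ)⟦X⟧) = 1 := by
    rw [← map_mul, mul_inv_cancel₀ ha', map_one]
  have e5 : (C (a⁻¹ ^ 2) : (PadicAlgCl ℓ)⟦X⟧) = C a⁻¹ ^ 2 := map_pow _ _ _
  have e6 : (C (a'⁻¹ ^ 2) : (PadicAlgCl ℓ)⟦X⟧) = C a'⁻¹ ^ 2 := map_pow _ _ _
  rw [e1, e2] at h5
  rw [e5] at h6
  rw [e2, e6]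
  set A := (C a : (PadicAlgCl ℓ)⟦X⟧)
  set A' := (C a' : (PadicAlgCl ℓ)⟦X⟧)
  set B := (C a⁻¹ : (PadicAlgCl ℓ)⟦X⟧)
  set B' := (C a'⁻¹ : (PadicAlgCl ℓ)⟦X⟧)
  set P := psi a a'
  set U := Ua a
  set Z := (X : (PadicAlgCl ℓ)⟦X⟧)
  -- (1+BZ) * (K * (B'^2 P)) = (1+BZ) * (K * ((1+B'P) U)), K = 1 + (A-A')B^2 Z
  have g1 : (1 + B * Z) * ((1 + (A - A') * B ^ 2 * Z) * (B' ^ 2 * P)) =
      (1 + B * Z) * (B' ^ 2 * (A' ^ 2 * B ^ 2 * Z)) := by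
    linear_combination (1 + B * Z) * B' ^ 2 * h5
  have g2 : (1 + B * Z) * ((1 + (A - A') * B ^ 2 * Z) * ((1 + B' * P) * U)) =
      ((1 + (A - A') * B ^ 2 * Z) + B' * (A' ^ 2 * B ^ 2 * Z)) * (B ^ 2 * Z) := by
    linear_combination ((1 + (A - A') * B ^ 2 * Z) * (1 + B' * P)) * h6 + B' * (B ^ 2 * Z) * h5
  rw [g1, g2]
  have g3 : B' ^ 2 * A' ^ 2 = 1 := by
    linear_combination (A' * B' + 1) * e4
  have g4 : B' * A' ^ 2 = A' := by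
    linear_combination A' * e4
  have g5 : A * B ^ 2 = B := by
    linear_combination B * e3
  linear_combination (1 + B * Z) * B ^ 2 * Z * g3 - B ^ 2 * Z * B ^ 2 * Z * g4 - B ^ 2 * Z * Z * g5

/-- The chart: substitution of `u = s / (a² + a s)`. -/
def Theta : (PadicAlgCl ℓ)⟦X⟧ →ₐ[PadicAlgCl ℓ] (PadicAlgCl ℓ)⟦X⟧ :=
  substAlgHom (R := PadicAlgCl ℓ) (hasSubst_Ua a)

theorem Theta_C (c : PadicAlgCl ℓ) : Theta a (C c) = C c := by
  rw [Theta, coe_substAlgHom]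
  exact subst_C c

theorem Theta_X : Theta a X = Ua a := substAlgHom_X (hasSubst_Ua a)

theorem Theta_change (ha : a ≠ 0) (ha' : a' ≠ 0) (g : (PadicAlgCl ℓ)⟦X⟧) :
    (Theta a' g).subst (psi a a') = Theta a g := by
  rw [Theta, Theta, coe_substAlgHom, coe_substAlgHom,
    subst_comp_subst_apply (hasSubst_Ua a') (hasSubst_psi a a'), Ua_subst_psi a a' ha ha']

theorem psi_sub (ha : a ≠ 0) : psi a a' - C (-a') =
    C (a' * a⁻¹) * inv1 ((a - a') * a⁻¹ ^ 2) * (X - C (-a)) := by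
  have h1 := inv1_mul ((a - a') * a⁻¹ ^ 2)
  have e1 : (C (a' ^ 2 * a⁻¹ ^ 2) : (PadicAlgCl ℓ)⟦X⟧) = C a' ^ 2 * C a⁻¹ ^ 2 := by
    rw [map_mul, map_pow, map_pow]
  have e2 : (C ((a - a') * a⁻¹ ^ 2) : (PadicAlgCl ℓ)⟦X⟧) = (C a - C a') * C a⁻¹ ^ 2 := by
    rw [map_mul, map_sub, map_pow]
  have e3 : (C a * C a⁻¹ : (PadicAlgCl ℓ)⟦X⟧) = 1 := by
    rw [← map_mul, mul_inv_cancel₀ ha, map_one]
  rw [psi, e1]
  rw [e2] at h1
  set I := inv1 ((a - a') * a⁻¹ ^ 2)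
  have e7 : (C (a' * a⁻¹) : (PadicAlgCl ℓ)⟦X⟧) = C a' * C a⁻¹ := map_mul _ _ _
  rw [e7, map_neg, map_neg]
  set A := (C a : (PadicAlgCl ℓ)⟦X⟧)
  set A' := (C a' : (PadicAlgCl ℓ)⟦X⟧)
  set B := (C a⁻¹ : (PadicAlgCl ℓ)⟦X⟧)
  set Z := (X : (PadicAlgCl ℓ)⟦X⟧)
  linear_combination (-A') * h1 + (-A' * I + A' * I * Z * B) * e3

end Pool.Agent.KimAff
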