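import Pool.Agent.H8.KimA.Chart

/-!
# Bounds for the charts
-/

open PowerSeries

noncomputable section

namespace Pool.Agent.KimAff

open Pool.Agent.H83.Kim (BO evalBO C_mem_BO X_mem_BO evalBO_C evalBO_X)

attribute [local instance] MvPolynomial.gradedAlgebra

variable {ℓ : ℕ} [hℓ : Fact ℓ.Prime]

section norms

variable {a a' : PadicAlgCl ℓ}

theorem norm_ell : ‖(ℓ : PadicAlgCl ℓ)‖ = (ℓ : ℝ)⁻¹ := by
  have h4 : (ℓ : PadicAlgCl ℓ) = algebraMap ℚ_[ℓ] (PadicAlgCl ℓ) (ℓ : ℚ_[ℓ]) := by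
    rw [map_natCast]
  rw [h4, norm_algebraMap', Padic.norm_p]

theorem norm_ell_lt_one : ‖(ℓ : PadicAlgCl ℓ)‖ < 1 := by
  rw [norm_ell]
  exact inv_lt_one_of_one_lt₀ (by exact_mod_cast hℓ.out.one_lt)

theorem norm_natCast_le_one (m : ℕ) : ‖(m : PadicAlgCl ℓ)‖ ≤ 1 := by
  have h4 : (m : PadicAlgCl ℓ) = algebraMap ℚ_[ℓ] (PadicAlgCl ℓ) (m : ℚ_[ℓ]) := by
    rw [map_natCast]
  rw [h4, norm_algebraMap']
  exact_mod_cast Padic.norm_int_le_one (m : ℤ)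

theorem root_ne_zero (ha : a ^ ℓ = ℓ) : a ≠ 0 := by
  rintro rfl
  rw [zero_pow hℓ.out.ne_zero] at ha
  have := norm_ell (ℓ := ℓ)
  rw [← ha, norm_zero] at this
  have h1 : (0 : ℝ) < (ℓ : ℝ)⁻¹ := inv_pos.mpr (by exact_mod_cast hℓ.out.pos)
  exact h1.ne this

theorem norm_root_lt_one (ha : a ^ ℓ = ℓ) : ‖a‖ < 1 := by
  have h1 : ‖a‖ ^ ℓ < 1 := by
    rw [← norm_pow, ha]
    exact norm_ell_lt_one
  exact (pow_lt_one_iff_of_nonneg (norm_nonneg _) hℓ.out.ne_zero).mp h1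

theorem norm_root_eq (ha : a ^ ℓ = ℓ) (ha' : a' ^ ℓ = ℓ) : ‖a'‖ = ‖a‖ := by
  apply (pow_left_inj₀ (norm_nonneg _) (norm_nonneg _) hℓ.out.ne_zero).mp
  rw [← norm_pow, ← norm_pow, ha, ha']

theorem norm_root_sub (hodd : Odd ℓ) (ha : a ^ ℓ = ℓ) (ha' : a' ^ ℓ = ℓ) : ‖a - a'‖ ≤ ‖a‖ ^ 2 := by
  have h1 := add_pow_prime_eq hℓ.out a (-a')
  rw [hodd.neg_pow, ha, ha', add_neg_cancel, zero_add, ← sub_eq_add_neg] at h1
  set S := ∑ k ∈ Finset.Ioo 0 ℓ, a ^ (k - 1) * (-a') ^ (ℓ - k - 1) * ((ℓ.choose k / ℓ : ℕ) :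
    PadicAlgCl ℓ) with hS
  have h2 : ‖S‖ ≤ ‖a‖ ^ (ℓ - 2) := by
    refine IsUltrametricDist.norm_sum_le_of_forall_le_of_nonneg (by positivity) ?_
    intro k hk
    rw [Finset.mem_Ioo] at hk
    rw [norm_mul, norm_mul, norm_pow, norm_pow, norm_neg, norm_root_eq ha ha', ← pow_add]
    have e : k - 1 + (ℓ - k - 1) = ℓ - 2 := by omega
    rw [e]
    exact (mul_le_mul_of_nonneg_left (norm_natCast_le_one _) (by positivity)).trans_eq (mul_one _)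
  have h3 : ‖a - a'‖ ^ ℓ ≤ (‖a‖ ^ 2) ^ ℓ := by
    rw [← norm_pow, h1, norm_mul, norm_mul, norm_mul, norm_neg, norm_root_eq ha ha', ← ha, norm_pow]
    have h4 : ‖a‖ ^ ℓ * ‖a‖ * ‖a‖ * ‖S‖ ≤ ‖a‖ ^ ℓ * ‖a‖ * ‖a‖ * ‖a‖ ^ (ℓ - 2) :=
      mul_le_mul_of_nonneg_left h2 (by positivity)
    refine h4.trans_eq ?_
    have h5 := hℓ.out.two_le
    rw [← pow_succ, ← pow_succ, ← pow_add, ← pow_mul]
    congr 1
    omega
  exact (pow_le_pow_iff_left₀ (norm_nonneg _) (by positivity) hℓ.out.ne_zero).mp h3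

end norms

section chart

variable (a : PadicAlgCl ℓ) (ha : a ^ ℓ = ℓ)

include ha in
/-- The equation of the complement in the chart is invertible. -/
theorem isUnit_chart : ∃ h ∈ BO ℓ, h * ((1 + C a⁻¹ * X) ^ ℓ -
    (ℓ : (PadicAlgCl ℓ)⟦X⟧) * (C (a⁻¹ ^ 2) * X) ^ ℓ) = 1 := by
  have ha0 := root_ne_zero ha
  let K : IntermediateField ℚ_[ℓ] (PadicAlgCl ℓ) := IntermediateField.adjoin ℚ_[ℓ] {a}
  have hint : IsIntegral ℚ_[ℓ] a := (Algebra.IsAlgebraic.isAlgebraic a).isIntegral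
  have hK : FiniteDimensional ℚ_[ℓ] K := IntermediateField.adjoin.finiteDimensional hint
  have haK : a ∈ OK K :=
    ⟨IntermediateField.mem_adjoin_simple_self ℚ_[ℓ] a, (norm_root_lt_one ha).le⟩
  have h1 := add_pow_prime_eq hℓ.out (1 : (PadicAlgCl ℓ)⟦X⟧) (C a⁻¹ * X)
  have h2 : (C a⁻¹ * X : (PadicAlgCl ℓ)⟦X⟧) ^ ℓ =
      (ℓ : (PadicAlgCl ℓ)⟦X⟧) * (C (a⁻¹ ^ 2) * X) ^ ℓ := by
    have e1 : (ℓ : (PadicAlgCl ℓ)⟦X⟧) = C (a ^ ℓ) := by rw [ha, map_natCast]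
    rw [e1, mul_pow, mul_pow, ← mul_assoc, ← map_pow, ← map_pow, ← map_mul]
    congr 2
    rw [← pow_mul, mul_comm 2 ℓ, pow_mul, sq, ← mul_assoc, ← mul_pow, mul_inv_cancel₀ ha0, one_pow,
      one_mul]
  rw [h1, h2, one_pow]
  have h3 : ∀ k ∈ Finset.Ioo 0 ℓ, (ℓ : (PadicAlgCl ℓ)⟦X⟧) * 1 * (C a⁻¹ * X) *
      (1 ^ (k - 1) * (C a⁻¹ * X) ^ (ℓ - k - 1) * ((ℓ.choose k / ℓ : ℕ) : (PadicAlgCl ℓ)⟦X⟧)) =
      C (a ^ k) * ((ℓ.choose k / ℓ : ℕ) : (PadicAlgCl ℓ)⟦X⟧) * X ^ (ℓ - k - 1) * X := by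
    intro k hk
    rw [Finset.mem_Ioo] at hk
    have e1 : (ℓ : (PadicAlgCl ℓ)⟦X⟧) = C (a ^ ℓ) := by rw [ha, map_natCast]
    have e2 : (C (a ^ ℓ) * C a⁻¹ * C a⁻¹ ^ (ℓ - k - 1) : (PadicAlgCl ℓ)⟦X⟧) = C (a ^ k) := by
      rw [← map_pow C a⁻¹, ← map_mul, ← map_mul]
      congr 1
      obtain ⟨m, hm⟩ : ∃ m, ℓ = k + (m + 1) := ⟨ℓ - k - 1, by omega⟩
      have e : ℓ - k - 1 = m := by omega
      rw [e]
      have e3 : a ^ ℓ = a ^ k * a ^ (m + 1) := by rw [← pow_add, ← hm]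
      rw [e3, mul_assoc, mul_assoc, ← pow_succ', ← mul_pow, mul_inv_cancel₀ ha0, one_pow, mul_one]
    rw [one_pow, mul_pow, ← e2, e1]
    ring
  rw [Finset.mul_sum, Finset.sum_congr rfl h3]
  set Q := ∑ k ∈ Finset.Ioo 0 ℓ, C (a ^ k) * ((ℓ.choose k / ℓ : ℕ) : (PadicAlgCl ℓ)⟦X⟧) *
    X ^ (ℓ - k - 1) * X with hQ
  have e0 : ∀ Y : (PadicAlgCl ℓ)⟦X⟧, 1 + Y + Q - Y = 1 + Q := fun Y => by ring
  rw [e0]
  have hQK : Q ∈ IK K := (IK K).sum_mem fun k _ => (IK K).mul_mem ((IK K).mul_mem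
    ((IK K).mul_mem (C_mem_IK ((OK K).pow_mem haK k)) (natCast_mem _ _))
    ((IK K).pow_mem X_mem_IK _)) X_mem_IK
  have hQ0 : constantCoeff Q = 0 := by
    rw [hQ, map_sum]
    refine Finset.sum_eq_zero fun k _ => ?_
    rw [map_mul, constantCoeff_X, mul_zero]
  obtain ⟨h, hh, hh1⟩ := exists_inv_mem_IK ((IK K).add_mem (IK K).one_mem hQK)
    (by rw [map_add, hQ0, map_one, add_zero])
  exact ⟨h, IK_mem_BO hh, hh1⟩

/-- The first projective coordinate in the chart. -/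
def chartX : BO ℓ := ⟨1 + C a⁻¹ * X,
  (BO ℓ).add_mem (BO ℓ).one_mem ((BO ℓ).mul_mem (C_mem_BO _) X_mem_BO)⟩

/-- The second projective coordinate in the chart. -/
def chartY : BO ℓ := ⟨C (a⁻¹ ^ 2) * X, (BO ℓ).mul_mem (C_mem_BO _) X_mem_BO⟩

include ha in
theorem isUnit_chartXY : IsUnit (chartX a ^ ℓ - (ℓ : BO ℓ) * chartY a ^ ℓ) := by
  obtain ⟨h, hh, hh1⟩ := isUnit_chart a ha
  refine IsUnit.of_mul_eq_one_right ⟨h, hh⟩ ?_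
  apply Subtype.ext
  exact hh1

/-- Functions on `𝒳_ℓ` as bounded functions on the disc. -/
def chartHom : Coord ℓ →+* BO ℓ := point (chartX a) (chartY a) (isUnit_chartXY a ha)

theorem chartHom_coe (f : Coord ℓ) : ((chartHom a ha f : BO ℓ) : (PadicAlgCl ℓ)⟦X⟧) =
    Theta a (point 1 X (isUnit_one_sub ℓ hℓ.out.ne_zero) f) := by
  have h0 := root_ne_zero ha
  have hu : IsUnit ((1 : (PadicAlgCl ℓ)⟦X⟧) ^ ℓ - (ℓ : (PadicAlgCl ℓ)⟦X⟧) * Ua a ^ ℓ) := by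
    have h1 := (isUnit_one_sub (R := PadicAlgCl ℓ) ℓ hℓ.out.ne_zero).map (Theta a)
    rwa [map_sub, map_mul, map_pow, map_pow, map_one, map_natCast, Theta_X] at h1
  have hu' : IsUnit ((Theta a (1 : (PadicAlgCl ℓ)⟦X⟧)) ^ ℓ -
      (ℓ : (PadicAlgCl ℓ)⟦X⟧) * Theta a X ^ ℓ) := by
    rwa [map_one, Theta_X]
  have e1 := comp_point (Theta a : (PadicAlgCl ℓ)⟦X⟧ →+* (PadicAlgCl ℓ)⟦X⟧) 1 X
    (isUnit_one_sub ℓ hℓ.out.ne_zero) hu'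
  have e2 := comp_point (BO ℓ).subtype (chartX a) (chartY a) (isUnit_chartXY a ha)
    (by
      have := (isUnit_chartXY a ha).map (BO ℓ).subtype
      simpa using this)
  have e3 := RingHom.congr_fun e1 f
  have e4 := RingHom.congr_fun e2 f
  rw [RingHom.comp_apply] at e3 e4
  change (BO ℓ).subtype (chartHom a ha f) = _
  rw [chartHom, e4]
  refine Eq.trans ?_ e3.symm
  obtain ⟨n, P, hP, rfl⟩ := quot_surjective f
  -- both sides agree after multiplication with a unit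
  have hu2 : IsUnit (((BO ℓ).subtype (chartX a)) ^ ℓ -
      (ℓ : (PadicAlgCl ℓ)⟦X⟧) * ((BO ℓ).subtype (chartY a)) ^ ℓ) := by
    have := (isUnit_chartXY a ha).map (BO ℓ).subtype
    simpa using this
  have q1 := point_quot ((BO ℓ).subtype (chartX a)) ((BO ℓ).subtype (chartY a)) hu2 n P hP
  have q2 := point_quot _ _ hu' n P hP
  apply (hu2.pow n).mul_right_cancel
  rw [q1]
  have c1 : (BO ℓ).subtype (chartX a) = (1 + C a⁻¹ * X) * Theta a 1 := by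
    rw [map_one, mul_one]; rfl
  have c2 : (BO ℓ).subtype (chartY a) = (1 + C a⁻¹ * X) * Theta a X := by
    rw [Theta_X, Ua_spec]; rfl
  rw [c1, c2, ev_scale hP, mul_pow, mul_pow]
  have c3 : (1 + C a⁻¹ * X : (PadicAlgCl ℓ)⟦X⟧) ^ ℓ * Theta a 1 ^ ℓ -
      (ℓ : (PadicAlgCl ℓ)⟦X⟧) * ((1 + C a⁻¹ * X) ^ ℓ * Theta a X ^ ℓ) =
      (1 + C a⁻¹ * X) ^ ℓ * (Theta a 1 ^ ℓ - (ℓ : (PadicAlgCl ℓ)⟦X⟧) * Theta a X ^ ℓ) := by
    ring
  rw [c3, mul_pow, ← pow_mul, mul_comm ℓ n, ← smul_eq_mul, mul_left_comm]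
  congr 1
  exact q2.symm

/-- The value of the chart at `s = -a` is the point `[0 : 1]`. -/
theorem evalBO_chartHom (f : Coord ℓ)
    (hy : ‖-a‖ < 1) (h01 : IsUnit ((0 : PadicAlgCl ℓ) ^ ℓ - (ℓ : PadicAlgCl ℓ) * 1 ^ ℓ)) :
    evalBO (-a) hy (chartHom a ha f) = point 0 1 h01 f := by
  have h0 := root_ne_zero ha
  have v1 : evalBO (-a) hy (chartX a) = 0 := by
    have e : chartX a = 1 + ⟨C a⁻¹, C_mem_BO _⟩ * ⟨X, X_mem_BO⟩ := rfl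
    rw [e, map_add, map_mul, map_one, evalBO_C, evalBO_X, mul_neg, inv_mul_cancel₀ h0,
      add_neg_cancel]
  have v2 : evalBO (-a) hy (chartY a) = -a⁻¹ := by
    have e : chartY a = ⟨C (a⁻¹ ^ 2), C_mem_BO _⟩ * ⟨X, X_mem_BO⟩ := rfl
    rw [e, map_mul, evalBO_C, evalBO_X]
    field_simp
  have hu : IsUnit ((evalBO (-a) hy (chartX a)) ^ ℓ -
      (ℓ : PadicAlgCl ℓ) * (evalBO (-a) hy (chartY a)) ^ ℓ) := by
    have := (isUnit_chartXY a ha).map (evalBO (-a) hy)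
    simpa using this
  have e1 := comp_point (evalBO (-a) hy) (chartX a) (chartY a) (isUnit_chartXY a ha) hu
  have e2 := RingHom.congr_fun e1 f
  rw [RingHom.comp_apply] at e2
  rw [chartHom, e2]
  obtain ⟨n, P, hP, rfl⟩ := quot_surjective f
  have q1 := point_quot _ _ hu n P hP
  have q2 := point_quot _ _ h01 n P hP
  apply (hu.pow n).mul_right_cancel
  rw [q1, v1, v2]
  have c1 : (0 : PadicAlgCl ℓ) = -a⁻¹ * 0 := by rw [mul_zero]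
  have c2 : -a⁻¹ = -a⁻¹ * (1 : PadicAlgCl ℓ) := by rw [mul_one]
  have c3 : ev (0 : PadicAlgCl ℓ) (-a⁻¹) P = (-a⁻¹) ^ (n • ℓ) * ev 0 1 P := by
    rw [← ev_scale hP, mul_zero, mul_one]
  rw [c3, ← q2, zero_pow hℓ.out.ne_zero, one_pow, smul_eq_mul, mul_comm n ℓ, pow_mul]
  ring

end chart

end Pool.Agent.KimAff
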