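import Pool.Agent.H8.KimA.Tools

/-!
# Continuity of the cocycle of a path
-/

open Topology Filter
open scoped TensorProduct

noncomputable section

namespace Pool.Agent.KimAff

open Pool.Agent.H83.Kim hiding pathOf_act

variable {A : Type} [CommRing A]


theorem fix_bar_mem_nhds (t : Bar A) : {τ : GalQ | galBar A τ t = t} ∈ 𝓝 (1 : GalQ) := by
  induction t using Bar.ind with
  | h0 => simp
  | ha s t hs ht =>
    refine mem_of_superset (inter_mem hs ht) ?_
    rintro τ ⟨h1, h2⟩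
    have h1' : galBar A τ s = s := h1
    have h2' : galBar A τ t = t := h2
    change galBar A τ (s + t) = s + t
    rw [map_add, h1', h2']
  | ht z a =>
    refine mem_of_superset (fix_mem_nhds z) ?_
    intro τ hτ
    have h1 : τ z = z := hτ
    change galBar A τ (Bar.tmul z a) = Bar.tmul z a
    rw [galBar_tmul, h1]

theorem map_twist_eq (c : Cov (Bar A)) {z : Bar A →+* Qbar}
    (hz : ∀ (σ : GalQ) a, σ.toRingEquiv (z a) = z (galBar A σ a)) {n : ℕ}
    {g : Fin n → c.B}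
    (hg : ∀ (R : Type) [CommRing R] (φ ψ : c.B →+* R), (∀ a, φ (c.s a) = ψ (c.s a)) →
        (∀ i, φ (g i) = ψ (g i)) → φ = ψ) (τ : GalQ) (t : c.B →+* c.B)
    (ht : t.comp c.s = (c.twist (galBar A τ)).s) (ht2 : ∀ i, t (g i) = g i)
    (φ : Fib z c) (hφ : ∀ i, τ (φ.1 (g i)) = φ.1 (g i)) :
    Fib.map (c := c) (d := c.twist (galBar A τ)) t ht
      (Fib.twist (galBar A τ) τ.toRingEquiv (hz τ) c φ) = φ := by
  apply Subtype.ext
  change ((τ.toRingEquiv.symm : Qbar →+* Qbar).comp φ.1).comp t = φ.1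
  apply hg
  · intro a
    change τ.toRingEquiv.symm (φ.1 (t (c.s a))) = φ.1 (c.s a)
    have e1 : t (c.s a) = c.s (galBar A τ a) := RingHom.congr_fun ht a
    have e2 : φ.1 (c.s (galBar A τ a)) = z (galBar A τ a) := RingHom.congr_fun φ.2 _
    have e3 : φ.1 (c.s a) = z a := RingHom.congr_fun φ.2 _
    rw [e1, e2, e3, RingEquiv.symm_apply_eq]
    exact (hz τ a).symm
  · intro i
    change τ.toRingEquiv.symm (φ.1 (t (g i))) = φ.1 (g i)
    rw [ht2, RingEquiv.symm_apply_eq]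
    exact (hφ i).symm

/-- Near the identity of the Galois group, a cover is isomorphic to its twist by a semilinear
automorphism that is compatible with all points of two given fibres. -/
theorem exists_semilinear [IsDomain (Bar A)] [IsPrincipalIdealRing (Bar A)]
    (c : Cov (Bar A)) {x y : Bar A →+* Qbar}
    (hx : ∀ (σ : GalQ) a, σ.toRingEquiv (x a) = x (galBar A σ a))
    (hy : ∀ (σ : GalQ) a, σ.toRingEquiv (y a) = y (galBar A σ a)) :
    {τ : GalQ | ∃ (t : c.B →+* c.B) (ht : t.comp c.s = (c.twist (galBar A τ)).s),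
      (∀ φ : Fib x c, Fib.map (c := c) (d := c.twist (galBar A τ)) t ht
        (Fib.twist (galBar A τ) τ.toRingEquiv (hx τ) c φ) = φ) ∧
      (∀ φ : Fib y c, Fib.map (c := c) (d := c.twist (galBar A τ)) t ht
        (Fib.twist (galBar A τ) τ.toRingEquiv (hy τ) c φ) = φ)} ∈ 𝓝 (1 : GalQ) := by
  obtain ⟨S, n, g, hg1, hg2⟩ := exists_presentation c
  have := (card_fib c x).1
  have := (card_fib c y).1
  have h1 : (⋂ a ∈ S, {τ : GalQ | galBar A τ a = a}) ∈ 𝓝 (1 : GalQ) :=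
    (biInter_finset_mem _).mpr fun a _ => fix_bar_mem_nhds a
  have h2 : (⋂ φ : Fib x c, ⋂ i : Fin n, {τ : GalQ | τ (φ.1 (g i)) = φ.1 (g i)}) ∈
      𝓝 (1 : GalQ) :=
    iInter_mem.mpr fun φ => iInter_mem.mpr fun i => fix_mem_nhds _
  have h3 : (⋂ φ : Fib y c, ⋂ i : Fin n, {τ : GalQ | τ (φ.1 (g i)) = φ.1 (g i)}) ∈
      𝓝 (1 : GalQ) :=
    iInter_mem.mpr fun φ => iInter_mem.mpr fun i => fix_mem_nhds _
  refine mem_of_superset (inter_mem h1 (inter_mem h2 h3)) ?_
  rintro τ ⟨hτ1, hτ2, hτ3⟩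
  simp only [Set.mem_iInter, Set.mem_ofPred_eq] at hτ1 hτ2 hτ3
  obtain ⟨t, ht, ht2⟩ := hg1 (galBar A τ : Bar A →+* Bar A) hτ1
  have ht' : t.comp c.s = (c.twist (galBar A τ)).s := RingHom.ext ht
  exact ⟨t, ht', fun φ => map_twist_eq c hx hg2 τ t ht' ht2 φ (hτ2 φ),
    fun φ => map_twist_eq c hy hg2 τ t ht' ht2 φ (hτ3 φ)⟩

/-- The cocycle attached to a path between two Galois-equivariant geometric points. -/
def pathCocycle {x y : Bar A →+* Qbar}
    (hx : ∀ (σ : GalQ) a, σ.toRingEquiv (x a) = x (galBar A σ a))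
    (hy : ∀ (σ : GalQ) a, σ.toRingEquiv (y a) = y (galBar A σ a)) (γ : Path x y)
    (σ : GalQ) : Path x x :=
  γ.diff (γ.act (galBar A σ) σ.toRingEquiv σ.toRingEquiv (hx σ) (hy σ))

theorem galBar_mul (σ τ : GalQ) :
    galBar A (σ * τ) = (galBar A τ).trans (galBar A σ) := by
  have : (galBar A (σ * τ) : Bar A →+* Bar A) =
      ((galBar A σ : Bar A →+* Bar A)).comp (galBar A τ) := by
    apply Bar_hom_ext
    intro z a
    rfl
  ext a
  exact RingHom.congr_fun this a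

theorem pathCocycle_mul {x y : Bar A →+* Qbar}
    (hx : ∀ (σ : GalQ) a, σ.toRingEquiv (x a) = x (galBar A σ a))
    (hy : ∀ (σ : GalQ) a, σ.toRingEquiv (y a) = y (galBar A σ a)) (γ : Path x y)
    (σ τ : GalQ) : pathCocycle hx hy γ (σ * τ) = pathCocycle hx hy γ σ *
      (pathCocycle hx hy γ τ).act (galBar A σ) σ.toRingEquiv σ.toRingEquiv (hx σ) (hx σ) := by
  have h1 : γ.act (galBar A (σ * τ)) (σ * τ).toRingEquiv (σ * τ).toRingEquiv
      (hx (σ * τ)) (hy (σ * τ)) =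
      (γ.act (galBar A τ) τ.toRingEquiv τ.toRingEquiv (hx τ) (hy τ)).act
        (galBar A σ) σ.toRingEquiv σ.toRingEquiv (hx σ) (hy σ) :=
    act_act_eq _ _ _ _ _ _ (galBar_mul σ τ) rfl rfl γ
  rw [pathCocycle, h1, pathCocycle, pathCocycle, act_diff _ _ σ.toRingEquiv _ (hy σ),
    Path.diff_mul_diff]

theorem pathCocycle_trivial_nhds [IsDomain (Bar A)]
    [IsPrincipalIdealRing (Bar A)] {x y : Bar A →+* Qbar}
    (hx : ∀ (σ : GalQ) a, σ.toRingEquiv (x a) = x (galBar A σ a))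
    (hy : ∀ (σ : GalQ) a, σ.toRingEquiv (y a) = y (galBar A σ a)) (γ : Path x y)
    (c : Cov (Bar A)) :
    {τ : GalQ | ∀ φ, (pathCocycle hx hy γ τ).map c φ = φ} ∈ 𝓝 (1 : GalQ) := by
  refine mem_of_superset (exists_semilinear c hx hy) ?_
  rintro τ ⟨t, ht, h1, h2⟩ φ
  have h3 := act_map_eq (hx τ) (hy τ) γ c t ht h1 h2 φ
  change (γ.map c).symm ((γ.act (galBar A τ) τ.toRingEquiv τ.toRingEquiv (hx τ) (hy τ)).map c φ) = φ
  rw [h3, Equiv.symm_apply_apply]

theorem pathCocycle_map_eq {x y : Bar A →+* Qbar}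
    (hx : ∀ (σ : GalQ) a, σ.toRingEquiv (x a) = x (galBar A σ a))
    (hy : ∀ (σ : GalQ) a, σ.toRingEquiv (y a) = y (galBar A σ a)) (γ : Path x y)
    (σ τ : GalQ) (c : Cov (Bar A)) (φ : Fib x c)
    (hτ : ∀ φ, (pathCocycle hx hy γ (σ⁻¹ * τ)).map (c.twist (galBar A σ)) φ = φ) :
    (pathCocycle hx hy γ τ).map c φ = (pathCocycle hx hy γ σ).map c φ := by
  have h4 := hτ (Fib.twist (galBar A σ) σ.toRingEquiv (hx σ) c φ)
  have h5 := pathCocycle_mul hx hy γ σ (σ⁻¹ * τ)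
  rw [mul_inv_cancel_left] at h5
  rw [h5, Path.mul_map, Path.act_map, h4, Equiv.symm_apply_apply]

/-- The cocycle of a path between two Galois-equivariant points is continuous. -/
theorem continuous_pathCocycle [IsDomain (Bar A)]
    [IsPrincipalIdealRing (Bar A)] {x y : Bar A →+* Qbar}
    (hx : ∀ (σ : GalQ) a, σ.toRingEquiv (x a) = x (galBar A σ a))
    (hy : ∀ (σ : GalQ) a, σ.toRingEquiv (y a) = y (galBar A σ a)) (γ : Path x y) :
    Continuous (pathCocycle hx hy γ) := by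
  rw [continuous_path_iff]
  intro c φ ψ
  rw [isOpen_iff_mem_nhds]
  intro σ hσ
  have h1 := pathCocycle_trivial_nhds hx hy γ (c.twist (galBar A σ))
  refine mem_of_superset (translate_mem_nhds h1 σ) ?_
  intro τ hτ
  have h6 := pathCocycle_map_eq hx hy γ σ τ c φ hτ
  have h7 : (pathCocycle hx hy γ τ).map c φ = ψ := h6.trans hσ
  exact h7

end Pool.Agent.KimAff
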