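import Pool.Agent.H8.KimA.FormDefs

/-!
# The complement of `x^ℓ = ℓ y^ℓ` in the projective line over `ℤ`
-/

open MvPolynomial

noncomputable section

namespace Pool.Agent.KimAff

attribute [local instance] MvPolynomial.gradedAlgebra

section point

variable {ℓ : ℕ} {R : Type*} [CommRing R]

theorem ev_form (x y : R) : ev x y (form ℓ) = x ^ ℓ - ℓ * y ^ ℓ := by
  simp [ev, form]

theorem isUnit_ev_form {x y : R} (h : IsUnit (x ^ ℓ - ℓ * y ^ ℓ)) : IsUnit (ev x y (form ℓ)) := by
  rwa [ev_form]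

/-- The `R`-valued point `[x : y]` of `𝒳_ℓ`, for `x, y ∈ R` with `x^ℓ - ℓ y^ℓ` invertible. -/
def point (x y : R) (h : IsUnit (x ^ ℓ - ℓ * y ^ ℓ)) : Coord ℓ →+* R := ptOf x y (isUnit_ev_form h)

theorem base_eq [hℓ : Fact ℓ.Prime] (h : IsUnit ((1 : ℤ) ^ ℓ - ℓ * 0 ^ ℓ)) :
    base ℓ = point 1 0 h := rfl

theorem form_mem (ℓ : ℕ) : form ℓ ∈ homogeneousSubmodule (Fin 2) ℤ ℓ := by
  rw [mem_homogeneousSubmodule]
  have h1 : (X 0 ^ ℓ : MvPolynomial (Fin 2) ℤ).IsHomogeneous ℓ := by
    simpa using (isHomogeneous_X_pow (R := ℤ) (0 : Fin 2) ℓ)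
  have h2 : (C (ℓ : ℤ) * X 1 ^ ℓ : MvPolynomial (Fin 2) ℤ).IsHomogeneous ℓ := by
    have := (isHomogeneous_C (Fin 2) (ℓ : ℤ)).mul (isHomogeneous_X_pow (R := ℤ) (1 : Fin 2) ℓ)
    simpa using this
  exact h1.sub h2

/-- The function `P / (x^ℓ - ℓ y^ℓ)^n` for a form `P` of degree `n ℓ`. -/
def quot (ℓ n : ℕ) (P : MvPolynomial (Fin 2) ℤ) (hP : P ∈ homogeneousSubmodule (Fin 2) ℤ (n • ℓ)) :
    Coord ℓ := HomogeneousLocalization.Away.mk _ (form_mem ℓ) n P hP

theorem incl_quot (n : ℕ) (P) (hP) : CoordOf.incl (form ℓ) (quot ℓ n P hP) =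
    Localization.mk P (⟨form ℓ ^ n, n, rfl⟩ : Submonoid.powers (form ℓ)) :=
  HomogeneousLocalization.Away.val_mk _ n (form_mem ℓ) P hP

theorem incl_injective : Function.Injective (CoordOf.incl (form ℓ)) :=
  HomogeneousLocalization.val_injective _

theorem quot_surjective (a : Coord ℓ) : ∃ n P hP, quot ℓ n P hP = a := by
  obtain ⟨n, P, hP, h⟩ := HomogeneousLocalization.Away.mk_surjective _ (form_mem ℓ) a
  exact ⟨n, P, hP, h⟩

theorem point_quot (x y : R) (h : IsUnit (x ^ ℓ - ℓ * y ^ ℓ)) (n : ℕ) (P) (hP) :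
    point x y h (quot ℓ n P hP) * (x ^ ℓ - ℓ * y ^ ℓ) ^ n = ev x y P := by
  rw [point, ptOf, RingHom.comp_apply, incl_quot, ← ev_form, ← map_pow,
    ← IsLocalization.Away.lift_eq (S := Localization.Away (form ℓ)) (form ℓ)
      (g := ev x y) (by rwa [ev_form]) (form ℓ ^ n), ← map_mul,
    ← IsLocalization.Away.lift_eq (S := Localization.Away (form ℓ)) (form ℓ)
      (g := ev x y) (by rwa [ev_form]) P]
  congr 1
  rw [Localization.mk_eq_mk']
  exact IsLocalization.mk'_spec _ P (⟨form ℓ ^ n, n, rfl⟩ : Submonoid.powers (form ℓ))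

/-- A ring homomorphism from the coordinate ring is a point as soon as it has projective
coordinates. -/
theorem eq_point {g : Coord ℓ →+* R} {x y : R} (h : IsUnit (x ^ ℓ - ℓ * y ^ ℓ))
    (hg : ∀ n P hP, g (quot ℓ n P hP) * (x ^ ℓ - ℓ * y ^ ℓ) ^ n = ev x y P) : g = point x y h := by
  ext a
  obtain ⟨n, P, hP, rfl⟩ := quot_surjective a
  exact (h.pow n).mul_right_cancel ((hg n P hP).trans (point_quot x y h n P hP).symm)

theorem comp_ev {S : Type*} [CommRing S] (f : R →+* S) (x y : R) (P) :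
    f (ev x y P) = ev (f x) (f y) P := by
  have : f.comp (ev x y) = ev (f x) (f y) := by
    apply MvPolynomial.ringHom_ext
    · intro r
      simp [ev]
    · intro i
      fin_cases i <;> simp [ev]
  exact RingHom.congr_fun this P

theorem comp_point {S : Type*} [CommRing S] (f : R →+* S) (x y : R)
    (h : IsUnit (x ^ ℓ - ℓ * y ^ ℓ)) (h' : IsUnit (f x ^ ℓ - ℓ * f y ^ ℓ)) :
    f.comp (point x y h) = point (f x) (f y) h' := by
  apply eq_point
  intro n P hP
  rw [← comp_ev, ← point_quot x y h n P hP, map_mul, map_pow, map_sub, map_mul, map_pow, map_pow,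
    map_natCast, RingHom.comp_apply]

end point

theorem eq_zero_of_ev_eq_zero {d : ℕ} {P : MvPolynomial (Fin 2) ℤ}
    (hP : P ∈ homogeneousSubmodule (Fin 2) ℤ d)
    (h : ev (1 : PowerSeries ℤ) PowerSeries.X P = 0) : P = 0 := by
  classical
  rw [mem_homogeneousSubmodule] at hP
  ext m
  rw [coeff_zero]
  by_contra hm
  have hd : m 0 + m 1 = d := by
    have := hP hm
    rw [Finsupp.weight_apply, Finsupp.sum_fintype _ _ (by simp)] at this
    simpa using this
  apply hm
  have h1 := congrArg (PowerSeries.coeff (m 1)) h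
  rw [map_zero, ev, coe_eval₂Hom, eval₂_eq', map_sum, Finset.sum_eq_single m] at h1
  · rw [Fin.prod_univ_two] at h1
    simp only [Matrix.cons_val_zero, one_pow, one_mul, Matrix.cons_val_one, eq_intCast] at h1
    rw [← map_intCast (PowerSeries.C (R := ℤ)), PowerSeries.coeff_C_mul, PowerSeries.coeff_X_pow,
      if_pos rfl, mul_one] at h1
    exact h1
  · intro m' hm' hne
    rw [Fin.prod_univ_two]
    have hd' : m' 0 + m' 1 = d := by
      have := hP (mem_support_iff.mp hm')
      rw [Finsupp.weight_apply, Finsupp.sum_fintype _ _ (by simp)] at this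
      simpa using this
    have hne1 : m 1 ≠ m' 1 := by
      intro he
      apply hne
      ext i
      fin_cases i
      · simp only [Fin.zero_eta, Fin.isValue]; omega
      · exact he.symm
    simp only [Matrix.cons_val_zero, one_pow, one_mul, Matrix.cons_val_one, eq_intCast]
    rw [← map_intCast (PowerSeries.C (R := ℤ)), PowerSeries.coeff_C_mul, PowerSeries.coeff_X_pow,
      if_neg hne1, mul_zero]
  · intro h2
    exact absurd (mem_support_iff.mpr hm) h2

theorem isUnit_one_sub (ℓ : ℕ) (hℓ : ℓ ≠ 0) {R : Type*} [CommRing R] :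
    IsUnit ((1 : PowerSeries R) ^ ℓ - (ℓ : PowerSeries R) * PowerSeries.X ^ ℓ) := by
  rw [PowerSeries.isUnit_iff_constantCoeff]
  simp [hℓ]

/-- The expansion of functions at the point `[1 : 0]`, in terms of the coordinate `y / x`. -/
def expand (ℓ : ℕ) (hℓ : ℓ ≠ 0) : Coord ℓ →+* PowerSeries ℤ :=
  point 1 PowerSeries.X (isUnit_one_sub ℓ hℓ)

theorem expand_injective (ℓ : ℕ) (hℓ : ℓ ≠ 0) : Function.Injective (expand ℓ hℓ) := by
  rw [injective_iff_map_eq_zero]
  intro a ha
  obtain ⟨n, P, hP, rfl⟩ := quot_surjective a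
  have h1 := point_quot (1 : PowerSeries ℤ) PowerSeries.X (isUnit_one_sub ℓ hℓ) n P hP
  change expand ℓ hℓ _ * _ = _ at h1
  rw [ha, zero_mul] at h1
  have h2 := eq_zero_of_ev_eq_zero hP h1.symm
  subst h2
  apply incl_injective
  rw [incl_quot, map_zero, Localization.mk_zero]

end Pool.Agent.KimAff
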