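import Pool.Agent.H83.Kim.Path

/-!
# The complement of `x^ℓ = ℓ y^ℓ` in the projective line over `ℤ`

For a binary form `F` with integral coefficients we consider the affine scheme
`𝒳_F = ℙ¹_ℤ ∖ 𝒟`, where `𝒟 = V(F)`, and its points with values in a ring.
-/

open MvPolynomial

noncomputable section

namespace Pool.Agent.KimAff

open Pool.Agent.H83.Kim (Pt)

attribute [local instance] MvPolynomial.gradedAlgebra

/-- Polynomials in two variables over `R`. -/
abbrev Poly (R : Type*) [CommRing R] : Type _ := MvPolynomial (Fin 2) R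

/-- The coordinate ring of `𝒳_F = ℙ¹_ℤ ∖ V(F)`: the elements of degree `0` of `ℤ[x, y][1 / F]`. -/
def CoordOf (F : Poly ℤ) : Type :=
  HomogeneousLocalization.Away (homogeneousSubmodule (Fin 2) ℤ) F

instance CoordOf.instCommRing (F : Poly ℤ) : CommRing (CoordOf F) :=
  HomogeneousLocalization.homogeneousLocalizationCommRing

/-- The inclusion in `ℤ[x, y][1 / F]` of the subring of elements of degree `0`. -/
def CoordOf.incl (F : Poly ℤ) : Pt (CoordOf F) (Localization.Away F) :=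
  algebraMap (HomogeneousLocalization.Away (homogeneousSubmodule (Fin 2) ℤ) F) _

/-- The scheme `𝒳_F = ℙ¹_ℤ ∖ 𝒟`, for `𝒟 = V(F)`, together with the prime `p` and the finite set of
primes `S`, is admissible (for any base point `b ∈ 𝒳_F(ℤ)`): `F` is a form of degree `d ≥ 3`,
`𝒟` is reduced and horizontal (so that it has `d ≥ 3` complex points), `p` is an odd prime that
is not in `S`, and `𝒟 → Spec ℤ` is étale over every prime `v ∉ S`. -/
structure Admissible (F : Poly ℤ) (d p : ℕ) (S : Finset ℕ) : Prop where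
  form : F.IsHomogeneous d
  three_points : 3 ≤ d
  reduced : Squarefree F
  horizontal : ∀ q : ℤ, C q ∣ F → IsUnit q
  prime : p.Prime
  odd : Odd p
  notMem : p ∉ S
  etale : ∀ v : ℕ, v.Prime → v ∉ S → Squarefree (F.map (Int.castRingHom (ZMod v)))

/-- The binary form `x^ℓ - ℓ y^ℓ`. -/
def form (ℓ : ℕ) : Poly ℤ := X 0 ^ ℓ - C (ℓ : ℤ) * X 1 ^ ℓ

/-- The coordinate ring of `𝒳_ℓ = ℙ¹_ℤ ∖ V(x^ℓ - ℓ y^ℓ)`. -/
abbrev Coord (ℓ : ℕ) : Type := CoordOf (form ℓ)

section point

variable {F : Poly ℤ} {R : Type*} [CommRing R]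

/-- Evaluation of polynomials in two variables at `(x, y) ∈ R²`. -/
def ev (x y : R) : Pt (Poly ℤ) R := eval₂Hom (Int.castRingHom R) ![x, y]

/-- The `R`-valued point `[x : y]` of `𝒳_F`, for `x, y ∈ R` with `F(x, y)` invertible. -/
def ptOf (x y : R) (h : IsUnit (ev x y F)) : Pt (CoordOf F) R :=
  (IsLocalization.Away.lift F h : Pt (Localization.Away F) R).comp (CoordOf.incl F)

end point

theorem isUnit_base (ℓ : ℕ) [hℓ : Fact ℓ.Prime] : IsUnit (ev (1 : ℤ) 0 (form ℓ)) := by
  simp [ev, form, hℓ.out.ne_zero]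

/-- The point `[1 : 0]` of `𝒳_ℓ(ℤ)`. -/
def base (ℓ : ℕ) [Fact ℓ.Prime] : Pt (CoordOf (form ℓ)) ℤ := ptOf 1 0 (isUnit_base ℓ)

end Pool.Agent.KimAff
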