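import Pool.Agent.H8.KimA.Cont

/-!
# The global class of a rational point and its localisations
-/

open scoped TensorProduct

noncomputable section

namespace Pool.Agent.KimAff

open Pool.Agent.H83.Kim hiding pathOf_act

variable {A : Type} [CommRing A] (b : A →+* ℤ) (p n : ℕ)

/-- The geometric point over `ℚ̄` given by a rational point. -/
def ratPt (z : A →+* ℚ) : Bar A →+* Qbar := gpt (RingHom.id Qbar) ((algebraMap ℚ Qbar).comp z)

theorem ratPt_galBar (z : A →+* ℚ) (σ : GalQ) (t : Bar A) :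
    σ.toRingEquiv (ratPt z t) = ratPt z (galBar A σ t) :=
  gpt_galBar (RingHom.id Qbar) _ σ σ.toRingEquiv (fun _ => rfl) (fun a => σ.commutes (z a)) t

theorem basePt_eq_ratPt : basePt b = ratPt ((Int.castRingHom ℚ).comp b) := by
  rw [basePt, ratPt, ← RingHom.comp_assoc]
  congr 2

theorem comp_ratPt (z : A →+* ℚ) {v : ℕ} [Fact v.Prime] (ι : Qbar →+* Qvbar v) :
    ι.comp (ratPt z) = locPt ι ((algebraMap ℚ ℚ_[v]).comp z) := by
  apply Bar_hom_ext
  intro y a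
  rw [RingHom.comp_apply, ratPt, locPt, gpt_tmul, gpt_tmul, map_mul]
  congr 1
  change (ι.comp (algebraMap ℚ Qbar)) (z a) =
    ((algebraMap ℚ_[v] (Qvbar v)).comp (algebraMap ℚ ℚ_[v])) (z a)
  rw [Subsingleton.elim (ι.comp (algebraMap ℚ Qbar))
    ((algebraMap ℚ_[v] (Qvbar v)).comp (algebraMap ℚ ℚ_[v]))]

variable [IsDomain (Bar A)] [IsPrincipalIdealRing (Bar A)]

/-- The class of a rational point is a continuous cocycle. -/
theorem isCocycle_pathCocycle {y : Bar A →+* Qbar}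
    (hy : ∀ (σ : GalQ) a, σ.toRingEquiv (y a) = y (galBar A σ a)) (γ : Path (basePt b) y) :
    IsCocycle b p n fun σ => UQ.of p n (pathCocycle (basePt_galBar b) hy γ σ) := by
  constructor
  · exact (UQ.continuous_of p n (π := Pi1 b)).comp
      (continuous_pathCocycle (basePt_galBar b) hy γ)
  · intro σ τ
    rw [pathCocycle_mul, map_mul]
    congr 1
    exact (UQ.map_of p n (galPi1 b σ) _).symm

theorem diff_act_trans_canon {y : Bar A →+* Qbar}
    (hy : ∀ (σ : GalQ) a, σ.toRingEquiv (y a) = y (galBar A σ a)) (γ : Path (basePt b) y)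
    {v : ℕ} [Fact v.Prime] {ι : Qbar →+* Qvbar v} {x : A →+* ℚ_[v]} (hc : ι.comp y = locPt ι x)
    (σ : GalQ) (τ : GalQv v) (h : ∀ a, τ (ι a) = ι (σ a)) :
    Path.diff (γ.trans (canonPath ι hc)) (pathAct b σ τ h (γ.trans (canonPath ι hc))) =
      pathCocycle (basePt_galBar b) hy γ σ := by
  have e1 : pathAct b σ τ h (γ.trans (canonPath ι hc)) =
      (γ.act (galBar A σ) σ.toRingEquiv σ.toRingEquiv (basePt_galBar b σ)
        (hy σ)).trans (canonPath ι hc) := by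
    have e2 := act_trans (galBar A σ) σ.toRingEquiv σ.toRingEquiv τ.toRingEquiv
      (basePt_galBar b σ) (hy σ) (locPt_galBar ι x σ τ h) γ (canonPath ι hc)
    have e3 := canonPath_act ι hc (galBar A σ) σ.toRingEquiv τ.toRingEquiv
      (hy σ) (locPt_galBar ι x σ τ h) h
    rw [e3] at e2
    exact e2
  rw [e1, diff_trans_right]
  rfl

/-- The localisation of the class of a rational point. -/
theorem locEq_pathCocycle (z : A →+* ℚ) (γ : Path (basePt b) (ratPt z)) {v : ℕ} [Fact v.Prime]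
    (ι : Qbar →+* Qvbar v) (x : A →+* ℚ_[v]) (hx : x = (algebraMap ℚ ℚ_[v]).comp z) :
    LocEq b p n ι (fun σ => UQ.of p n (pathCocycle (basePt_galBar b) (ratPt_galBar z) γ σ)) x := by
  have hc : ι.comp (ratPt z) = locPt ι x := by rw [hx, comp_ratPt]
  exact ⟨γ.trans (canonPath ι hc), 1, fun σ τ h =>
    eq_conj_one (galUn b p n σ)
      (congrArg (UQ.of p n (π := Pi1 b)) (diff_act_trans_canon b (ratPt_galBar z) γ hc σ τ h).symm)⟩

/-- Integral points are weakly global at every level. -/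
theorem int_mem_weaklyGlobal [Fact p.Prime] (ι : ∀ (v : ℕ) [Fact v.Prime], Qbar →+* Qvbar v)
    (z : A →+* ℤ) : (Int.castRingHom ℤ_[p]).comp z ∈ weaklyGlobal b p n ι := by
  obtain ⟨γ⟩ := exists_path (basePt b) (ratPt ((Int.castRingHom ℚ).comp z))
  have key : ∀ (v : ℕ) [Fact v.Prime], toQv ((Int.castRingHom ℤ_[v]).comp z) =
      (algebraMap ℚ ℚ_[v]).comp ((Int.castRingHom ℚ).comp z) := by
    intro v _
    ext a
    simp [toQv]
  refine ⟨_, isCocycle_pathCocycle b p n (ratPt_galBar _) γ,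
    fun v _ _ => ⟨(Int.castRingHom ℤ_[v]).comp z, ?_⟩, ?_⟩
  · exact locEq_pathCocycle b p n _ γ (ι v) _ (key v)
  · exact locEq_pathCocycle b p n _ γ (ι p) _ (key p)

theorem conj_aux {G : Type*} [Group G] (φ : G →* G) {a b c : G} (h : c = a * b⁻¹) (hb : b = φ a) :
    c = (a⁻¹)⁻¹ * 1 * φ a⁻¹ := by
  rw [h, hb, map_inv, inv_inv, mul_one]

/-- If there is a path `δ` over `ℚ̄_v` from `b` to `x` whose class is Galois invariant in
`U_n(ℚ_p)`, then the class of `x` is locally at `v` the class of `b`. -/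
theorem locEq_base (z : A →+* ℚ) (γ : Path (basePt b) (ratPt z)) {v : ℕ} [Fact v.Prime]
    (ι : Qbar →+* Qvbar v)
    (δ : Path (basePt b) (locPt ι ((algebraMap ℚ ℚ_[v]).comp z)))
    (hδ : ∀ (σ : GalQ) (τ : GalQv v) (h : ∀ a, τ (ι a) = ι (σ a)),
      UQ.of p n (δ.diff (pathAct b σ τ h δ)) = 1) :
    LocEq b p n ι (fun σ => UQ.of p n (pathCocycle (basePt_galBar b) (ratPt_galBar z) γ σ))
      (toQv ((Int.castRingHom ℤ_[v]).comp b)) := by
  have hb : ι.comp (basePt b) = locPt ι (toQv ((Int.castRingHom ℤ_[v]).comp b)) := by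
    rw [basePt_eq_ratPt, comp_ratPt]
    congr 1
  set γ' := γ.trans (canonPath ι (comp_ratPt z ι)) with hγ'
  refine ⟨canonPath ι hb, UQ.of p n (γ'.diff δ)⁻¹, fun σ τ h => ?_⟩
  have e0 : (canonPath ι hb).diff (pathAct b σ τ h (canonPath ι hb)) = 1 := by
    have e1 := canonPath_act ι hb (galBar A σ) σ.toRingEquiv τ.toRingEquiv
      (basePt_galBar b σ) (locPt_galBar ι _ σ τ h) h
    rw [pathAct, e1, Path.diff_self]
  have e1 := diff_act_trans_canon b (ratPt_galBar z) γ (comp_ratPt z ι) σ τ h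
  rw [← hγ'] at e1
  -- `γ'⁻¹ τ(γ') = (γ'⁻¹ δ) (δ⁻¹ τ(δ)) (τ(δ)⁻¹ τ(γ'))`
  have e2 : γ'.diff (pathAct b σ τ h γ') =
      γ'.diff δ * δ.diff (pathAct b σ τ h δ) * ((pathAct b σ τ h γ').diff (pathAct b σ τ h δ))⁻¹ := by
    have e3 : ((pathAct b σ τ h γ').diff (pathAct b σ τ h δ))⁻¹ =
        (pathAct b σ τ h δ).diff (pathAct b σ τ h γ') := by
      rw [inv_eq_iff_mul_eq_one, Path.diff_mul_diff, Path.diff_self]
    rw [e3, Path.diff_mul_diff, Path.diff_mul_diff]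
  have e4 : (pathAct b σ τ h γ').diff (pathAct b σ τ h δ) = galPi1 b σ (γ'.diff δ) :=
    (act_diff (galBar A σ) σ.toRingEquiv τ.toRingEquiv (basePt_galBar b σ)
      (locPt_galBar ι _ σ τ h) γ' δ).symm
  have e5 : UQ.of p n (galPi1 b σ (γ'.diff δ)) =
      UQ.map p n (galPi1 b σ) (UQ.of p n (γ'.diff δ)) :=
    (UQ.map_of p n (galPi1 b σ) _).symm
  change (UQ.of p n (pathCocycle (basePt_galBar b) (ratPt_galBar z) γ σ) : UQ p n (Pi1 b)) =
    (UQ.of p n (γ'.diff δ)⁻¹ : UQ p n (Pi1 b))⁻¹ *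
      UQ.of p n ((canonPath ι hb).diff (pathAct b σ τ h (canonPath ι hb))) *
      UQ.map p n (galPi1 b σ) (UQ.of p n (γ'.diff δ)⁻¹)
  rw [e0, map_one (UQ.of p n), map_inv]
  refine conj_aux (UQ.map p n (galPi1 b σ)) ?_ e5
  rw [← e1, e2, map_mul, map_mul, hδ σ τ h, mul_one, map_inv, e4]

/-- A rational point `z` that is integral outside `ℓ` and whose class at `ℓ` is that of the base
point is weakly global at every level. -/
theorem mem_weaklyGlobal [Fact p.Prime] (ι : ∀ (v : ℕ) [Fact v.Prime], Qbar →+* Qvbar v)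
    (z : A →+* ℚ) (ℓ : ℕ) (hz : ∀ (v : ℕ) [Fact v.Prime], v ≠ ℓ → ∃ x : A →+* ℤ_[v],
      toQv x = (algebraMap ℚ ℚ_[v]).comp z)
    (hδ : ∀ [Fact ℓ.Prime], ∃ δ : Path (basePt b) (locPt (ι ℓ) ((algebraMap ℚ ℚ_[ℓ]).comp z)),
      ∀ (σ : GalQ) (τ : GalQv ℓ) (h : ∀ a, τ (ι ℓ a) = ι ℓ (σ a)),
        UQ.of p n (δ.diff (pathAct b σ τ h δ)) = 1)
    (x : A →+* ℤ_[p]) (hx : toQv x = (algebraMap ℚ ℚ_[p]).comp z) :
    x ∈ weaklyGlobal b p n ι := by
  obtain ⟨γ⟩ := exists_path (basePt b) (ratPt z)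
  refine ⟨_, isCocycle_pathCocycle b p n (ratPt_galBar z) γ, fun v _ _ => ?_, ?_⟩
  · by_cases hv : v = ℓ
    · subst hv
      obtain ⟨δ, hδ⟩ := hδ
      exact ⟨_, locEq_base b p n z γ (ι v) δ hδ⟩
    · obtain ⟨y, hy⟩ := hz v hv
      exact ⟨y, locEq_pathCocycle b p n z γ (ι v) _ hy⟩
  · exact locEq_pathCocycle b p n z γ (ι p) _ hx

end Pool.Agent.KimAff
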