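import Pool.Agent.H83.Kim.UnivCover

/-!
# The Galois action on the paths defined by the universal cover
-/

noncomputable section

namespace Pool.Agent.KimAff

open Pool.Agent.H83.Kim

section

variable {A W κ : Type} [CommRing A] [IsDomain A] [IsPrincipalIdealRing A] [CommRing W]
  [IsDomain W] [Algebra A W] [FaithfulSMul A W] [Field κ]

theorem Ahat_stable (α : A ≃+* A) (w : W ≃+* W)
    (hw : ∀ a, w (algebraMap A W a) = algebraMap A W (α a)) {g : W} (hg : g ∈ Ahat A W) :
    w g ∈ Ahat A W := by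
  obtain ⟨B, hB, hgB⟩ := hg
  let χ : Fib (algebraMap A W) (hB.cov.twist α.symm) := ⟨(w : W →+* W).comp B.val.toRingHom, by
    ext a
    change w (algebraMap A W (α.symm a)) = algebraMap A W a
    rw [hw, RingEquiv.apply_symm_apply]⟩
  exact χ.mem_Ahat (⟨g, hgB⟩ : B)

/-- The action of a semilinear automorphism on the universal cover. -/
def wHat (α : A ≃+* A) (w : W ≃+* W) (hw : ∀ a, w (algebraMap A W a) = algebraMap A W (α a)) :
    Ahat A W →+* Ahat A W :=
  ((w : W →+* W).comp (Ahat A W).val.toRingHom).codRestrict (Ahat A W).toSubring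
    fun g => Ahat_stable α w hw g.2

theorem wHat_coe (α : A ≃+* A) (w : W ≃+* W)
    (hw : ∀ a, w (algebraMap A W a) = algebraMap A W (α a)) (g : Ahat A W) :
    ((wHat α w hw g : Ahat A W) : W) = w g := rfl

theorem wHat_algebraMap (α : A ≃+* A) (w : W ≃+* W)
    (hw : ∀ a, w (algebraMap A W a) = algebraMap A W (α a)) (a : A) :
    wHat α w hw (algebraMap A (Ahat A W) a) = algebraMap A (Ahat A W) (α a) :=
  Subtype.ext (hw a)

omit [IsDomain A] [IsPrincipalIdealRing A] [IsDomain W] [FaithfulSMul A W] in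
theorem symm_compat {α : A ≃+* A} {w : W ≃+* W}
    (hw : ∀ a, w (algebraMap A W a) = algebraMap A W (α a)) (a : A) :
    w.symm (algebraMap A W a) = algebraMap A W (α.symm a) := by
  rw [RingEquiv.symm_apply_eq, hw, RingEquiv.apply_symm_apply]

variable [IsAlgClosed κ]

theorem pathOf_act (ε : W →+* κ) (hε : Function.Surjective ε) [IsAdicComplete (RingHom.ker ε) W]
    {x : A →+* κ} (hx : ε.comp (algebraMap A W) = x)
    {Ω : Type} [Field Ω] [IsAlgClosed Ω] {y : A →+* Ω}
    (h : Ahat A W →+* Ω) (hy : h.comp (algebraMap A (Ahat A W)) = y)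
    (α : A ≃+* A) (w : W ≃+* W) (hw : ∀ a, w (algebraMap A W a) = algebraMap A W (α a))
    (s : κ ≃+* κ) (t : Ω ≃+* Ω) (hs : ∀ a, s (x a) = x (α a)) (ht : ∀ a, t (y a) = y (α a))
    (hsw : ∀ g, ε (w g) = s (ε g))
    (hy' : ((t : Ω →+* Ω).comp (h.comp (wHat α.symm w.symm (symm_compat hw)))).comp
      (algebraMap A (Ahat A W)) = y) :
    (pathOf ε hε hx h hy).act α s t hs ht =
      pathOf ε hε hx ((t : Ω →+* Ω).comp (h.comp (wHat α.symm w.symm (symm_compat hw)))) hy' := by
  refine Pool.Agent.H83.Kim.Path.ext fun c φ => ?_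
  obtain ⟨χ, rfl⟩ := (Fib.push_bijective_of_complete ε hε hx c).2 φ
  rw [pathOf_map, Path.act_map]
  let χ' : Fib (algebraMap A W) (c.twist α) := ⟨(w.symm : W →+* W).comp χ.1, by
    ext a
    change w.symm (χ.1 (c.s (α a))) = algebraMap A W a
    have h1 : χ.1 (c.s (α a)) = algebraMap A W (α a) := RingHom.congr_fun χ.2 _
    rw [h1, symm_compat hw, RingEquiv.symm_apply_apply]⟩
  have e1 : Fib.twist α s hs c (Fib.push ε hx χ) = Fib.push ε hx χ' := by
    apply Subtype.ext
    refine RingHom.ext fun b => ?_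
    change s.symm (ε (χ.1 b)) = ε (w.symm (χ.1 b))
    rw [RingEquiv.symm_apply_eq, ← hsw, RingEquiv.apply_symm_apply]
  rw [e1, pathOf_map, Equiv.symm_apply_eq]
  apply Subtype.ext
  refine RingHom.ext fun b => ?_
  change h (χ'.toAhat b) = t.symm (t (h (wHat α.symm w.symm (symm_compat hw) (χ.toAhat b))))
  rw [RingEquiv.symm_apply_apply]
  rfl

end

end Pool.Agent.KimAff
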