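import Pool.Agent.H8.KimA.Defs
import Pool.Agent.H83.Kim.Unip2
import Pool.Agent.H83.Kim.PathLemmas
import Pool.Agent.H83.Kim.ActPath
import Pool.Agent.H83.Kim.Extend

/-!
# Tools: presentations of covers, canonical paths, existence of paths
-/

open Topology Filter

noncomputable section

namespace Pool.Agent.KimAff

open Pool.Agent.H83.Kim hiding pathOf_act

theorem exists_presentation {A : Type} [CommRing A] (c : Cov A) :
    ∃ (S : Finset A) (n : ℕ) (g : Fin n → c.B),
      (∀ α : A →+* A, (∀ a ∈ S, α a = a) → ∃ t : c.B →+* c.B,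
        (∀ a, t (c.s a) = c.s (α a)) ∧ ∀ i, t (g i) = g i) ∧
      (∀ (R : Type) [CommRing R] (φ ψ : c.B →+* R), (∀ a, φ (c.s a) = ψ (c.s a)) →
        (∀ i, φ (g i) = ψ (g i)) → φ = ψ) := by
  classical
  let := c.s.toAlgebra
  have hetale : Algebra.Etale A c.B := c.etale
  have hfp : Algebra.FinitePresentation A c.B := inferInstance
  obtain ⟨n, f, hf, S, hS⟩ := hfp.out
  refine ⟨S.biUnion fun F => F.coeffs, n, fun i => f (MvPolynomial.X i), ?_, ?_⟩
  · intro α hα
    have hker : RingHom.ker f.toRingHom ≤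
        RingHom.ker (f.toRingHom.comp (MvPolynomial.map α)) := by
      rw [← hS, Ideal.span_le]
      intro F hF
      have h5 : MvPolynomial.map α F = F := by
        ext d
        rw [MvPolynomial.coeff_map]
        by_cases hd : F.coeff d = 0
        · rw [hd, map_zero]
        · exact hα _ (Finset.mem_biUnion.mpr ⟨F, hF, MvPolynomial.coeff_mem_coeffs _ hd⟩)
      have h6 : F ∈ RingHom.ker f.toRingHom := by
        rw [← hS]; exact Ideal.subset_span hF
      change (f.toRingHom.comp (MvPolynomial.map α)) F = 0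
      rw [RingHom.comp_apply, h5]
      exact h6
    let t : c.B →+* c.B :=
      (f.toRingHom).liftOfSurjective hf ⟨f.toRingHom.comp (MvPolynomial.map α), hker⟩
    have htf : ∀ P, t (f P) = f (MvPolynomial.map α P) := fun P =>
      RingHom.liftOfRightInverse_comp_apply _ _ _ _ P
    refine ⟨t, fun a => ?_, fun i => ?_⟩
    · have h4 : c.s a = f (MvPolynomial.C a) := (f.commutes a).symm
      rw [h4, htf, MvPolynomial.map_C]
      exact f.commutes _
    · rw [htf, MvPolynomial.map_X]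
  · intro R _ φ ψ h1 h2
    have h4 : φ.comp f.toRingHom = ψ.comp f.toRingHom := by
      apply MvPolynomial.ringHom_ext
      · intro a
        have h5 : f (MvPolynomial.C a) = c.s a := f.commutes a
        change φ (f _) = ψ (f _)
        rw [h5, h1]
      · intro i
        exact h2 i
    apply RingHom.ext
    intro b
    obtain ⟨P, rfl⟩ := hf b
    exact RingHom.congr_fun h4 P

theorem isAlgebraic_Qbar : Algebra.IsAlgebraic ℚ Qbar := by
  have h := AlgebraicClosure.isAlgebraic ℚ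
  have e : (DivisionRing.toRatAlgebra : Algebra ℚ (AlgebraicClosure ℚ)) =
      AlgebraicClosure.instAlgebra ℚ := Subsingleton.elim _ _
  rw [e]
  exact h

theorem fix_mem_nhds (α : Qbar) : {τ : GalQ | τ α = α} ∈ 𝓝 (1 : GalQ) := by
  have halg : Algebra.IsAlgebraic ℚ Qbar := isAlgebraic_Qbar
  have hint : IsIntegral ℚ α := (halg.isAlgebraic α).isIntegral
  have := IntermediateField.adjoin.finiteDimensional hint
  have h1 := IntermediateField.fixingSubgroup_isOpen (IntermediateField.adjoin ℚ {α})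
  refine mem_of_superset (h1.mem_nhds (one_mem _)) ?_
  intro τ hτ
  exact (IntermediateField.mem_fixingSubgroup_iff _ _).mp hτ α
    (IntermediateField.mem_adjoin_simple_self ℚ α)

theorem act_act_eq {A : Type} [CommRing A] {Ω Ω' : Type} [Field Ω] [Field Ω'] {x : A →+* Ω}
    {y : A →+* Ω'} {α α' α'' : A ≃+* A} {s s' s'' : Ω ≃+* Ω} {t t' t'' : Ω' ≃+* Ω'}
    (hs : ∀ a, s (x a) = x (α a)) (ht : ∀ a, t (y a) = y (α a))
    (hs' : ∀ a, s' (x a) = x (α' a)) (ht' : ∀ a, t' (y a) = y (α' a))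
    (hs'' : ∀ a, s'' (x a) = x (α'' a)) (ht'' : ∀ a, t'' (y a) = y (α'' a))
    (h1 : α'' = α'.trans α) (h2 : s'' = s'.trans s) (h3 : t'' = t'.trans t) (γ : Path x y) :
    γ.act α'' s'' t'' hs'' ht'' = (γ.act α' s' t' hs' ht').act α s t hs ht := by
  subst h1; subst h2; subst h3; rfl

theorem act_diff {A : Type} [CommRing A] {Ω Ω' : Type} [CommRing Ω] [CommRing Ω']
    {x : A →+* Ω} {y : A →+* Ω'} (α : A ≃+* A) (s : Ω ≃+* Ω) (t : Ω' ≃+* Ω')
    (hs : ∀ a, s (x a) = x (α a)) (ht : ∀ a, t (y a) = y (α a)) (γ δ : Path x y) :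
    (γ.diff δ).act α s s hs hs = (γ.act α s t hs ht).diff (δ.act α s t hs ht) := by
  refine Pool.Agent.H83.Kim.Path.ext fun c φ => ?_
  change (Fib.twist α s hs c).symm ((γ.map _).symm (δ.map _ (Fib.twist α s hs c φ))) =
    (Fib.twist α s hs c).symm ((γ.map _).symm (Fib.twist α t ht c ((Fib.twist α t ht c).symm
      (δ.map _ (Fib.twist α s hs c φ)))))
  rw [Equiv.apply_symm_apply]

theorem act_map_eq {A : Type} [CommRing A] {Ω Ω' : Type} [Field Ω] [Field Ω'] {x : A →+* Ω}
    {y : A →+* Ω'} {α : A ≃+* A} {s : Ω ≃+* Ω} {t : Ω' ≃+* Ω'}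
    (hs : ∀ a, s (x a) = x (α a)) (ht : ∀ a, t (y a) = y (α a)) (γ : Path x y) (c : Cov A)
    (u : c.B →+* c.B) (hu : u.comp c.s = (c.twist α).s)
    (h1 : ∀ φ : Fib x c, Fib.map (c := c) (d := c.twist α) u hu (Fib.twist α s hs c φ) = φ)
    (h2 : ∀ φ : Fib y c, Fib.map (c := c) (d := c.twist α) u hu (Fib.twist α t ht c φ) = φ)
    (φ : Fib x c) : (γ.act α s t hs ht).map c φ = γ.map c φ := by
  have h4 := γ.natural c (c.twist α) u hu (Fib.twist α s hs c φ)
  rw [h1] at h4
  rw [h4, Path.act_map]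
  have h5 := h2 ((Fib.twist α t ht c).symm (γ.map (c.twist α) (Fib.twist α s hs c φ)))
  rw [Equiv.apply_symm_apply] at h5
  exact h5.symm

theorem translate_mem_nhds {G : Type*} [Group G] [TopologicalSpace G] [IsTopologicalGroup G]
    {N : Set G} (hN : N ∈ 𝓝 (1 : G)) (σ : G) : {τ : G | σ⁻¹ * τ ∈ N} ∈ 𝓝 σ := by
  have h1 : ContinuousAt (fun τ => σ⁻¹ * τ) σ := (continuous_const_mul σ⁻¹).continuousAt
  apply h1
  change N ∈ 𝓝 (σ⁻¹ * σ)
  rwa [inv_mul_cancel]

section canon

variable {A : Type} [CommRing A] [IsDomain A] [IsPrincipalIdealRing A]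
  {Ω Ω' : Type} [Field Ω] [Field Ω'] [IsAlgClosed Ω] [IsAlgClosed Ω']

/-- The canonical path between a geometric point and the point deduced from it by an extension
of algebraically closed fields. -/
def canonPath {x : A →+* Ω} {y : A →+* Ω'} (j : Ω →+* Ω') (hj : j.comp x = y) : Path x y :=
  Path.ofNatural (fun c => Equiv.ofBijective (Fib.push j hj) (by
    obtain ⟨f1, c1⟩ := card_fib c x
    obtain ⟨f2, c2⟩ := card_fib c y
    exact (Nat.bijective_iff_injective_and_card _).mpr ⟨Fib.push_injective j hj c, c1.trans c2.symm⟩))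
    fun _ _ _ _ _ => rfl

theorem canonPath_map {x : A →+* Ω} {y : A →+* Ω'} (j : Ω →+* Ω') (hj : j.comp x = y) (c : Cov A)
    (φ : Fib x c) : (canonPath j hj).map c φ = Fib.push j hj φ := rfl

theorem canonPath_act {x : A →+* Ω} {y : A →+* Ω'} (j : Ω →+* Ω') (hj : j.comp x = y)
    (α : A ≃+* A) (s : Ω ≃+* Ω) (t : Ω' ≃+* Ω') (hs : ∀ a, s (x a) = x (α a))
    (ht : ∀ a, t (y a) = y (α a)) (hst : ∀ a, t (j a) = j (s a)) :
    (canonPath j hj).act α s t hs ht = canonPath j hj := by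
  refine Pool.Agent.H83.Kim.Path.ext fun c φ => ?_
  rw [Path.act_map, Equiv.symm_apply_eq, canonPath_map, canonPath_map]
  apply Subtype.ext
  ext b
  change j (s.symm (φ.1 b)) = t.symm (j (φ.1 b))
  rw [eq_comm, RingEquiv.symm_apply_eq, hst, RingEquiv.apply_symm_apply]

end canon

theorem act_trans {A : Type} [CommRing A] {Ω₁ Ω₂ Ω₃ : Type} [CommRing Ω₁] [CommRing Ω₂]
    [CommRing Ω₃] {x : A →+* Ω₁} {y : A →+* Ω₂} {z : A →+* Ω₃} (α : A ≃+* A) (s₁ : Ω₁ ≃+* Ω₁)
    (s₂ : Ω₂ ≃+* Ω₂) (s₃ : Ω₃ ≃+* Ω₃) (h₁ : ∀ a, s₁ (x a) = x (α a)) (h₂ : ∀ a, s₂ (y a) = y (α a))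
    (h₃ : ∀ a, s₃ (z a) = z (α a)) (γ : Path x y) (δ : Path y z) :
    (γ.trans δ).act α s₁ s₃ h₁ h₃ = (γ.act α s₁ s₂ h₁ h₂).trans (δ.act α s₂ s₃ h₂ h₃) := by
  refine Pool.Agent.H83.Kim.Path.ext fun c φ => ?_
  change (Fib.twist α s₃ h₃ c).symm (δ.map _ (γ.map _ (Fib.twist α s₁ h₁ c φ))) =
    (Fib.twist α s₃ h₃ c).symm (δ.map _ (Fib.twist α s₂ h₂ c ((Fib.twist α s₂ h₂ c).symm
      (γ.map _ (Fib.twist α s₁ h₁ c φ)))))
  rw [Equiv.apply_symm_apply]

theorem diff_trans_right {A : Type} [CommRing A] {Ω₁ Ω₂ Ω₃ : Type} [CommRing Ω₁] [CommRing Ω₂]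
    [CommRing Ω₃] {x : A →+* Ω₁} {y : A →+* Ω₂} {z : A →+* Ω₃} (γ γ' : Path x y) (δ : Path y z) :
    (γ.trans δ).diff (γ'.trans δ) = γ.diff γ' := by
  refine Pool.Agent.H83.Kim.Path.ext fun c φ => ?_
  change (γ.map c).symm ((δ.map c).symm (δ.map c (γ'.map c φ))) = (γ.map c).symm (γ'.map c φ)
  rw [Equiv.symm_apply_apply]

/-- Existence of étale paths. -/
theorem exists_path {A : Type} [CommRing A] [IsDomain A] [IsPrincipalIdealRing A]
    {Ω Ω' : Type} [Field Ω] [Field Ω'] [IsAlgClosed Ω] [IsAlgClosed Ω']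
    (x : A →+* Ω) (y : A →+* Ω') : Nonempty (Path x y) := by
  let L := AlgebraicClosure (FractionRing A)
  let η : A →+* L := (algebraMap (FractionRing A) L).comp (algebraMap A (FractionRing A))
  have hη : Function.Injective η :=
    (algebraMap (FractionRing A) L).injective.comp (IsFractionRing.injective A (FractionRing A))
  let := η.toAlgebra
  have key : ∀ {Ω : Type} [Field Ω] [IsAlgClosed Ω] (x : A →+* Ω), Nonempty (Path η x) := by
    intro Ω _ _ x
    let T := integralClosure A L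
    have hint : (algebraMap A T).IsIntegral := fun z => Algebra.IsIntegral.isIntegral z
    have hinj : Function.Injective (algebraMap A T) := fun a c h =>
      hη (congrArg Subtype.val h)
    obtain ⟨g, hg⟩ := exists_extension (algebraMap A T) x hinj hint
    -- points with values in `L` take values in `T`
    have hmem : ∀ (c : Cov A) (φ : Fib η c) (b : c.B), φ.1 b ∈ T := by
      intro c φ b
      obtain ⟨P, hP, hP2⟩ := c.finite.to_isIntegral b
      refine ⟨P, hP, ?_⟩
      have h1 := Polynomial.hom_eval₂ P c.s φ.1 b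
      rw [hP2, map_zero, φ.2] at h1
      exact h1.symm
    let F : ∀ c : Cov A, Fib η c → Fib (algebraMap A T) c := fun c φ =>
      ⟨φ.1.codRestrict T.toSubring (fun b => hmem c φ b), by
        ext a
        exact RingHom.congr_fun φ.2 a⟩
    have hg' : g.comp (algebraMap A T) = x := RingHom.ext hg
    have hbij : ∀ c : Cov A, Function.Bijective (fun φ : Fib η c => Fib.push g hg' (F c φ)) := by
      intro c
      obtain ⟨f1, c1⟩ := card_fib c η
      obtain ⟨f2, c2⟩ := card_fib c x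
      refine (Nat.bijective_iff_injective_and_card _).mpr ⟨?_, c1.trans c2.symm⟩
      intro φ ψ h
      have h1 := Fib.push_injective g hg' c h
      apply Subtype.ext
      ext b
      exact congrArg (fun G : Fib (algebraMap A T) c => ((G.1 b : T) : L)) h1
    exact ⟨Path.ofNatural (fun c => Equiv.ofBijective _ (hbij c)) fun _ _ _ _ _ => rfl⟩
  obtain ⟨γ⟩ := key x
  obtain ⟨δ⟩ := key y
  exact ⟨γ.symm.trans δ⟩

theorem eq_conj_one {G : Type*} [Group G] (φ : G →* G) {a b : G} (h : a = b) :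
    a = (1 : G)⁻¹ * b * φ 1 := by
  rw [h, map_one, inv_one, one_mul, mul_one]

end Pool.Agent.KimAff
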