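import Pool.Agent.H8.KimA.Chart2
import Pool.Agent.H8.KimA.PathGal
import Pool.Agent.H83.Kim.Star
import Pool.Agent.H8.KimA.Tools
import Pool.Agent.H83.Kim.Unip3

/-!
# The local classes at `ℓ` of `[1 : 0]` and `[0 : 1]` are equal
-/

open PowerSeries
open scoped TensorProduct

noncomputable section

namespace Pool.Agent.KimAff

open Pool.Agent.H83.Kim (Ahat UQ BO evalBO pathOf Path exists_extension star)

attribute [local instance] MvPolynomial.gradedAlgebra

instance adic_ker : IsAdicComplete (RingHom.ker (constantCoeff (R := Qbar))) (PowerSeries Qbar) := by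
  have h : RingHom.ker (constantCoeff (R := Qbar)) = Ideal.span {X} := by
    ext f
    rw [RingHom.mem_ker, Ideal.mem_span_singleton, X_dvd_iff]
  rw [h]
  infer_instance

theorem constantCoeff_surj : Function.Surjective (constantCoeff (R := Qbar)) := fun z =>
  ⟨C z, constantCoeff_C z⟩

/-- The action of the Galois group on the coefficients of a power series. -/
def wGal (σ : GalQ) : PowerSeries Qbar ≃+* PowerSeries Qbar :=
  RingEquiv.ofRingHom (PowerSeries.map (σ : Qbar →+* Qbar))
    (PowerSeries.map (σ.symm : Qbar →+* Qbar))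
    (by
      ext f n
      simp)
    (by
      ext f n
      simp)

theorem wGal_apply (σ : GalQ) (f : PowerSeries Qbar) :
    wGal σ f = PowerSeries.map (σ : Qbar →+* Qbar) f := rfl

section alg

variable (ℓ : ℕ) [hℓ : Fact ℓ.Prime]

/-- The expansions of functions at the base point. -/
instance algBar : Algebra (Bar (Coord ℓ)) (PowerSeries Qbar) :=
  (theta Qbar ℓ hℓ.out.ne_zero).toAlgebra

theorem algebraMap_bar_tmul (z : Qbar) (a : Coord ℓ) :
    algebraMap (Bar (Coord ℓ)) (PowerSeries Qbar) (Bar.tmul z a) =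
      C z * (expand ℓ hℓ.out.ne_zero a).map (Int.castRingHom Qbar) :=
  theta_tmul Qbar ℓ hℓ.out.ne_zero z a

theorem algebraMap_bar_tmul' (z : Qbar) (a : Coord ℓ) :
    algebraMap (Bar (Coord ℓ)) (PowerSeries Qbar) (Bar.tmul z a) =
      C z * point 1 X (isUnit_one_sub ℓ hℓ.out.ne_zero) a :=
  theta_tmul' Qbar ℓ hℓ.out.ne_zero z a

instance : FaithfulSMul (Bar (Coord ℓ)) (PowerSeries Qbar) := by
  rw [faithfulSMul_iff_algebraMap_injective]
  exact theta_injective Qbar ℓ hℓ.out.ne_zero

instance : IsDomain (Bar (Coord ℓ)) := bar_isDomain ℓ hℓ.out.ne_zero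

instance : IsPrincipalIdealRing (Bar (Coord ℓ)) := bar_isPrincipalIdealRing ℓ hℓ.out.ne_zero

theorem wGal_algebraMap (σ : GalQ) (t : Bar (Coord ℓ)) :
    wGal σ (algebraMap (Bar (Coord ℓ)) (PowerSeries Qbar) t) =
      algebraMap (Bar (Coord ℓ)) (PowerSeries Qbar) (galBar (Coord ℓ) σ t) := by
  induction t using Bar.ind with
  | h0 => rw [map_zero, map_zero, map_zero, map_zero]
  | ha s t hs ht => rw [map_add, map_add, map_add, map_add, hs, ht]
  | ht z a =>
    rw [galBar_tmul, algebraMap_bar_tmul, algebraMap_bar_tmul, wGal_apply, map_mul, map_C]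
    congr 1
    ext n
    simp

theorem constantCoeff_comp : (constantCoeff (R := Qbar)).comp
    (algebraMap (Bar (Coord ℓ)) (PowerSeries Qbar)) = basePt (base ℓ) := by
  apply Bar_hom_ext
  intro z a
  rw [RingHom.comp_apply, algebraMap_bar_tmul', basePt, gpt_tmul, map_mul, constantCoeff_C]
  congr 1
  have e1 := comp_point (constantCoeff (R := Qbar)) 1 X (isUnit_one_sub ℓ hℓ.out.ne_zero)
    (by simp [hℓ.out.ne_zero])
  have e2 := comp_point (Int.castRingHom Qbar) (1 : ℤ) 0 (ℓ := ℓ) (by simp [hℓ.out.ne_zero])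
    (by simp [hℓ.out.ne_zero])
  have e3 := RingHom.congr_fun e1 a
  rw [RingHom.comp_apply] at e3
  rw [e3]
  rw [base_eq (by simp [hℓ.out.ne_zero]), e2]
  congr 2 <;> simp

end alg

end Pool.Agent.KimAff
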