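import Pool.Agent.H8.KimA.Local

/-!
# The local classes at `ℓ` of `[1 : 0]` and `[0 : 1]` are equal
-/

open PowerSeries
open scoped TensorProduct

noncomputable section

namespace Pool.Agent.KimAff

open Pool.Agent.H83.Kim (Ahat UQ BO evalBO pathOf Path exists_extension star
  C_mem_BO evalBO_C map_galois_mem evalBO_spec evalBO_eq)

attribute [local instance] MvPolynomial.gradedAlgebra

variable {ℓ : ℕ} [hℓ : Fact ℓ.Prime] (ι : Qbar →+* Qvbar ℓ)

/-- The universal cover. -/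
abbrev AH (ℓ : ℕ) [Fact ℓ.Prime] : Subalgebra (Bar (Coord ℓ)) (PowerSeries Qbar) :=
  Ahat (Bar (Coord ℓ)) (PowerSeries Qbar)

/-- The chart on the universal cover. -/
def ThetaHat (a : PadicAlgCl ℓ) : AH ℓ →+* (PadicAlgCl ℓ)⟦X⟧ :=
  (Theta a : (PadicAlgCl ℓ)⟦X⟧ →+* (PadicAlgCl ℓ)⟦X⟧).comp
    ((PowerSeries.map ι).comp (AH ℓ).val.toRingHom)

theorem ThetaHat_apply (a : PadicAlgCl ℓ) (g : AH ℓ) :
    ThetaHat ι a g = Theta a (PowerSeries.map ι (g : PowerSeries Qbar)) := rfl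

theorem ThetaHat_tmul {a : PadicAlgCl ℓ} (ha : a ^ ℓ = ℓ) (z : Qbar) (f : Coord ℓ) :
    ThetaHat ι a (algebraMap (Bar (Coord ℓ)) (AH ℓ) (Bar.tmul z f)) = C (ι z) * chartHom a ha f := by
  have e0 : ((algebraMap (Bar (Coord ℓ)) (AH ℓ) (Bar.tmul z f) : AH ℓ) : PowerSeries Qbar) =
      C z * (expand ℓ hℓ.out.ne_zero f).map (Int.castRingHom Qbar) := rfl
  rw [ThetaHat_apply, e0, map_mul, map_mul, map_C, chartHom_coe, Theta_C]
  congr 2
  rw [← map_expand (PadicAlgCl ℓ) ℓ hℓ.out.ne_zero]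
  ext n
  simp

theorem ThetaHat_mem {a : PadicAlgCl ℓ} (ha : a ^ ℓ = ℓ) (t : Bar (Coord ℓ)) :
    ThetaHat ι a (algebraMap (Bar (Coord ℓ)) (AH ℓ) t) ∈ BO ℓ := by
  induction t using Bar.ind with
  | h0 => rw [map_zero, map_zero]; exact (BO ℓ).zero_mem
  | ha s t hs ht => rw [map_add, map_add]; exact (BO ℓ).add_mem hs ht
  | ht z f =>
    rw [ThetaHat_tmul ι ha]
    exact (BO ℓ).mul_mem (C_mem_BO _) (chartHom a ha f).2

theorem isUnit_zero_one (ℓ : ℕ) [hℓ : Fact ℓ.Prime] {F : Type*} [Field F] [CharZero F] :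
    IsUnit ((0 : F) ^ ℓ - (ℓ : F) * 1 ^ ℓ) := by
  rw [zero_pow hℓ.out.ne_zero, one_pow, mul_one, zero_sub, IsUnit.neg_iff, isUnit_iff_ne_zero]
  exact_mod_cast hℓ.out.ne_zero

/-- The point `[0 : 1]` over a field of characteristic zero. -/
def pt01 (ℓ : ℕ) [hℓ : Fact ℓ.Prime] (F : Type*) [Field F] [CharZero F] : Coord ℓ →+* F :=
  point 0 1 (isUnit_zero_one ℓ)

theorem comp_pt01 {F F' : Type*} [Field F] [CharZero F] [Field F'] [CharZero F'] (f : F →+* F') :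
    f.comp (pt01 ℓ F) = pt01 ℓ F' := by
  rw [pt01, comp_point f 0 1 _ (by rw [map_zero, map_one]; exact isUnit_zero_one ℓ), pt01]
  congr 1
  · rw [map_zero]
  · rw [map_one]

section

variable {a : PadicAlgCl ℓ} (ha : a ^ ℓ = ℓ)

theorem norm_neg_root (ha : a ^ ℓ = ℓ) : ‖-a‖ < 1 := by
  rw [norm_neg]; exact norm_root_lt_one ha

/-- Elements of the universal cover that are bounded functions on the disc. -/
def SHat (a : PadicAlgCl ℓ) : Subring (AH ℓ) := (BO ℓ).comap (ThetaHat ι a)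

/-- Evaluation at the point `[0 : 1]` of the disc. -/
def evS (ha : a ^ ℓ = ℓ) : SHat ι a →+* PadicAlgCl ℓ :=
  (evalBO (-a) (norm_neg_root ha)).comp
    (((ThetaHat ι a).comp (SHat ι a).subtype).codRestrict (BO ℓ) fun g => g.2)

theorem evS_apply (g : SHat ι a) : evS ι ha g =
    evalBO (-a) (norm_neg_root ha) ⟨ThetaHat ι a (g : AH ℓ), g.2⟩ := rfl

theorem exists_h : ∃ h : AH ℓ →+* PadicAlgCl ℓ, (∀ g : SHat ι a, h g = evS ι ha g) ∧
    h.comp (algebraMap (Bar (Coord ℓ)) (AH ℓ)) = locPt ι (pt01 ℓ ℚ_[ℓ]) := by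
  let i : SHat ι a →+* AH ℓ := (SHat ι a).subtype
  have hint : @RingHom.IsIntegral (SHat ι a) (AH ℓ) _ _ i := by
    intro g
    have hI : Algebra.IsIntegral (Bar (Coord ℓ)) (AH ℓ) := inferInstance
    obtain ⟨P, hP, hPg⟩ := hI.isIntegral g
    let j : Bar (Coord ℓ) →+* SHat ι a :=
      (algebraMap (Bar (Coord ℓ)) (AH ℓ)).codRestrict (SHat ι a) fun t => ThetaHat_mem ι ha t
    refine ⟨P.map j, hP.map j, ?_⟩
    rw [Polynomial.eval₂_map]
    exact hPg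
  obtain ⟨h, hh⟩ := exists_extension (R := SHat ι a) (S := AH ℓ) i (evS ι ha)
    Subtype.val_injective hint
  refine ⟨h, hh, ?_⟩
  apply Bar_hom_ext
  intro z f
  have e1 := hh ⟨algebraMap (Bar (Coord ℓ)) (AH ℓ) (Bar.tmul z f), ThetaHat_mem ι ha _⟩
  rw [RingHom.comp_apply]
  refine e1.trans ?_
  rw [evS_apply, locPt, gpt_tmul, comp_pt01]
  have e2 : (⟨ThetaHat ι a (algebraMap (Bar (Coord ℓ)) (AH ℓ) (Bar.tmul z f)), ThetaHat_mem ι ha _⟩ :
      BO ℓ) = ⟨C (ι z), C_mem_BO _⟩ * chartHom a ha f :=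
    Subtype.ext (ThetaHat_tmul ι ha z f)
  refine (congrArg (evalBO (-a) (norm_neg_root ha)) e2).trans ?_
  rw [map_mul, evalBO_C, evalBO_chartHom a ha f (norm_neg_root ha) (isUnit_zero_one ℓ)]
  rfl

end

section change

variable {a a' : PadicAlgCl ℓ}

/-- A function that is bounded in one chart is bounded in the other, and has the same value at the
point `[0 : 1]`. -/
theorem change_chart (hodd : Odd ℓ) (ha : a ^ ℓ = ℓ) (ha' : a' ^ ℓ = ℓ) {g : (PadicAlgCl ℓ)⟦X⟧}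
    (hg : Theta a' g ∈ BO ℓ) : ∃ hg' : Theta a g ∈ BO ℓ,
      evalBO (-a) (norm_neg_root ha) ⟨Theta a g, hg'⟩ =
        evalBO (-a') (norm_neg_root ha') ⟨Theta a' g, hg⟩ := by
  have h0 := root_ne_zero ha
  have h0' := root_ne_zero ha'
  let K : IntermediateField ℚ_[ℓ] (PadicAlgCl ℓ) := IntermediateField.adjoin ℚ_[ℓ] {a, a'}
  have hK : FiniteDimensional ℚ_[ℓ] K := by
    refine IntermediateField.finiteDimensional_adjoin fun x _ => ?_
    exact (Algebra.IsAlgebraic.isAlgebraic x).isIntegral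
  have haK : a ∈ K := IntermediateField.subset_adjoin _ _ (by simp)
  have haK' : a' ∈ K := IntermediateField.subset_adjoin _ _ (by simp)
  have hn := norm_root_eq ha ha'
  have hκ : (a - a') * a⁻¹ ^ 2 ∈ OK K := by
    refine ⟨K.mul_mem (K.sub_mem haK haK') (pow_mem (K.inv_mem haK) 2), ?_⟩
    rw [norm_mul, norm_pow, norm_inv, inv_pow]
    have h1 := norm_root_sub hodd ha ha'
    have h2 : 0 < ‖a‖ ^ 2 := by
      have := norm_pos_iff.mpr h0
      positivity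
    rw [← div_eq_mul_inv, div_le_one h2]
    exact h1
  have hc : a' ^ 2 * a⁻¹ ^ 2 ∈ OK K := by
    refine ⟨K.mul_mem (pow_mem haK' 2) (pow_mem (K.inv_mem haK) 2), ?_⟩
    rw [norm_mul, norm_pow, norm_pow, norm_inv, hn, ← mul_pow, mul_inv_cancel₀, one_pow]
    exact (norm_pos_iff.mpr h0).ne'
  have hc' : a' * a⁻¹ ∈ OK K := by
    refine ⟨K.mul_mem haK' (K.inv_mem haK), ?_⟩
    rw [norm_mul, norm_inv, hn, mul_inv_cancel₀]
    exact (norm_pos_iff.mpr h0).ne'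
  have hφ : psi a a' ∈ IK K := (IK K).mul_mem ((IK K).mul_mem (C_mem_IK hc) X_mem_IK)
    (inv1_mem_IK _ hκ)
  have hψ : C (a' * a⁻¹) * inv1 ((a - a') * a⁻¹ ^ 2) ∈ BO ℓ :=
    IK_mem_BO ((IK K).mul_mem (C_mem_IK hc') (inv1_mem_IK _ hκ))
  have e := evalBO_subst hφ (constantCoeff_psi a a') (norm_neg_root ha) (norm_neg_root ha') hψ
    (psi_sub a a' h0) ⟨Theta a' g, hg⟩
  have e2 : (Theta a' g).subst (psi a a') = Theta a g := Theta_change a a' h0 h0' g
  have hmem := subst_mem_BO hφ (constantCoeff_psi a a') hg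
  rw [e2] at hmem
  refine ⟨hmem, ?_⟩
  rw [← e]
  congr 1
  exact Subtype.ext e2.symm

end change

end Pool.Agent.KimAff
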