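import Pool.Agent.H8.KimA.Local2

/-!
# The local classes at `ℓ` of `[1 : 0]` and `[0 : 1]` are equal
-/

open PowerSeries
open scoped TensorProduct

noncomputable section

namespace Pool.Agent.KimAff

open Pool.Agent.H83.Kim (Ahat UQ BO evalBO pathOf Path exists_extension star
  C_mem_BO evalBO_C map_galois_mem evalBO_spec evalBO_eq)

attribute [local instance] MvPolynomial.gradedAlgebra

variable {ℓ : ℕ} [hℓ : Fact ℓ.Prime] (ι : Qbar →+* Qvbar ℓ)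

section galois

variable (τ : PadicAlgCl ℓ ≃ₐ[ℚ_[ℓ]] PadicAlgCl ℓ)

theorem evalBO_galois' {y y' : PadicAlgCl ℓ} (hy : ‖y‖ < 1) (hy' : ‖y'‖ < 1) (hyy : τ y = y')
    {g g' : (PadicAlgCl ℓ)⟦X⟧} (hg : g ∈ BO ℓ) (hg' : g' ∈ BO ℓ)
    (hgg : g.map (τ : PadicAlgCl ℓ →+* PadicAlgCl ℓ) = g') :
    evalBO y' hy' ⟨g', hg'⟩ = τ (evalBO y hy ⟨g, hg⟩) := by
  obtain ⟨q, hq, h⟩ := evalBO_spec y hy ⟨g, hg⟩
  refine evalBO_eq (map_galois_mem τ hq) ?_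
  have := congrArg (PowerSeries.map (τ : PadicAlgCl ℓ →+* PadicAlgCl ℓ)) h
  rw [map_add, map_mul, map_sub, map_X, map_C, map_C] at this
  have h2 : (τ : PadicAlgCl ℓ →+* PadicAlgCl ℓ) y = y' := hyy
  rw [h2] at this
  exact hgg.symm.trans this

theorem map_Ua (a : PadicAlgCl ℓ) :
    (Ua a).map (τ : PadicAlgCl ℓ →+* PadicAlgCl ℓ) = Ua (τ a) := by
  have h1 := congrArg (PowerSeries.map (τ : PadicAlgCl ℓ →+* PadicAlgCl ℓ)) (Ua_spec a)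
  rw [map_mul, map_add, map_one, map_mul, map_mul, map_C, map_C, map_X, map_pow, map_inv₀] at h1
  have h2 := Ua_spec (τ a)
  have h3 : (1 + C (τ a)⁻¹ * X : (PadicAlgCl ℓ)⟦X⟧) ≠ 0 := by
    intro h
    have := congrArg constantCoeff h
    simp at this
  exact mul_left_cancel₀ h3 (h1.trans h2.symm)

theorem map_Theta (a : PadicAlgCl ℓ) (g : (PadicAlgCl ℓ)⟦X⟧) :
    (Theta a g).map (τ : PadicAlgCl ℓ →+* PadicAlgCl ℓ) =
      Theta (τ a) (g.map (τ : PadicAlgCl ℓ →+* PadicAlgCl ℓ)) := by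
  have h1 := PowerSeries.map_subst (hasSubst_Ua a) (h := (τ : PadicAlgCl ℓ →+* PadicAlgCl ℓ)) g
  have h2 : MvPowerSeries.map (τ : PadicAlgCl ℓ →+* PadicAlgCl ℓ) (Ua a) = Ua (τ a) := map_Ua τ a
  rw [h2] at h1
  rw [Theta, Theta, coe_substAlgHom, coe_substAlgHom]
  exact h1

end galois

variable (hodd : Odd ℓ) {a : PadicAlgCl ℓ} (ha : a ^ ℓ = ℓ)

theorem tau_root (ha : a ^ ℓ = ℓ) (τ : PadicAlgCl ℓ ≃ₐ[ℚ_[ℓ]] PadicAlgCl ℓ) :
    (τ a) ^ ℓ = (ℓ : PadicAlgCl ℓ) := by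
  rw [← map_pow, ha, map_natCast]

/-- The value at `[0 : 1]` of bounded functions is Galois equivariant. -/
theorem eval_equivariant (hodd : Odd ℓ) (ha : a ^ ℓ = ℓ)
    (τ : PadicAlgCl ℓ ≃ₐ[ℚ_[ℓ]] PadicAlgCl ℓ) {G0 G : (PadicAlgCl ℓ)⟦X⟧}
    (hG : G0.map (τ : PadicAlgCl ℓ →+* PadicAlgCl ℓ) = G) (hmem : Theta a G ∈ BO ℓ) :
    ∃ hmem0 : Theta a G0 ∈ BO ℓ,
      τ (evalBO (-a) (norm_neg_root ha) ⟨Theta a G0, hmem0⟩) =
        evalBO (-a) (norm_neg_root ha) ⟨Theta a G, hmem⟩ := by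
  obtain ⟨h1, h2⟩ := change_chart (a := τ a) (a' := a) hodd (tau_root ha τ) ha hmem
  have e1 : (Theta a G0).map (τ : PadicAlgCl ℓ →+* PadicAlgCl ℓ) = Theta (τ a) G := by
    rw [map_Theta, hG]
  have e2 : Theta a G0 = (Theta (τ a) G).map (τ.symm : PadicAlgCl ℓ →+* PadicAlgCl ℓ) := by
    rw [← e1]
    ext n
    simp
  have hmem0 : Theta a G0 ∈ BO ℓ := by
    rw [e2]
    exact map_galois_mem τ.symm h1
  refine ⟨hmem0, ?_⟩
  rw [← h2]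
  exact (evalBO_galois' τ (norm_neg_root ha) (norm_neg_root (tau_root ha τ)) (map_neg τ a) hmem0
    h1 e1).symm

theorem constantCoeff_wGal (σ : GalQ) (g : PowerSeries Qbar) :
    constantCoeff (wGal σ g) = σ.toRingEquiv (constantCoeff g) := by
  rw [wGal_apply, ← coeff_zero_eq_constantCoeff_apply, coeff_map,
    coeff_zero_eq_constantCoeff_apply]
  rfl

/-- The inverse of the action of `σ` on the universal cover. -/
def wInv (ℓ : ℕ) [Fact ℓ.Prime] (σ : GalQ) : AH ℓ →+* AH ℓ :=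
  wHat (galBar (Coord ℓ) σ).symm (wGal σ).symm (symm_compat (wGal_algebraMap ℓ σ))

theorem wInv_algebraMap (σ : GalQ) (t : Bar (Coord ℓ)) :
    wInv ℓ σ (algebraMap (Bar (Coord ℓ)) (AH ℓ) t) =
      algebraMap (Bar (Coord ℓ)) (AH ℓ) ((galBar (Coord ℓ) σ).symm t) :=
  wHat_algebraMap (galBar (Coord ℓ) σ).symm (wGal σ).symm (symm_compat (wGal_algebraMap ℓ σ)) t

theorem map_map_wInv (σ : GalQ) (τ : GalQv ℓ) (hστ : ∀ z, τ (ι z) = ι (σ z)) (g : AH ℓ) :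
    (PowerSeries.map ι (wInv ℓ σ g : PowerSeries Qbar)).map (τ : PadicAlgCl ℓ →+* PadicAlgCl ℓ) =
      PowerSeries.map ι (g : PowerSeries Qbar) := by
  have e1 : (wInv ℓ σ g : PowerSeries Qbar) = (wGal σ).symm (g : PowerSeries Qbar) := rfl
  ext n
  rw [coeff_map, coeff_map, coeff_map, e1]
  have e2 : coeff n ((wGal σ).symm (g : PowerSeries Qbar)) =
      σ.symm (coeff n (g : PowerSeries Qbar)) :=
    coeff_map (σ.symm : Qbar →+* Qbar) n (g : PowerSeries Qbar)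
  rw [e2]
  have e3 : τ (ι (σ.symm (coeff n (g : PowerSeries Qbar)))) =
      ι (coeff n (g : PowerSeries Qbar)) := by
    rw [hστ, AlgEquiv.apply_symm_apply]
  exact e3

theorem comp_wInv (h : AH ℓ →+* PadicAlgCl ℓ)
    (hy : h.comp (algebraMap (Bar (Coord ℓ)) (AH ℓ)) = locPt ι (pt01 ℓ ℚ_[ℓ]))
    (σ : GalQ) (τ : GalQv ℓ) (hστ : ∀ z, τ (ι z) = ι (σ z)) :
    ((τ.toRingEquiv : Qvbar ℓ →+* Qvbar ℓ).comp (h.comp (wInv ℓ σ))).comp
      (algebraMap (Bar (Coord ℓ)) (AH ℓ)) = locPt ι (pt01 ℓ ℚ_[ℓ]) := by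
  refine RingHom.ext fun t => ?_
  rw [RingHom.comp_apply, RingHom.comp_apply, RingHom.comp_apply, wInv_algebraMap]
  have e2 : h (algebraMap (Bar (Coord ℓ)) (AH ℓ) ((galBar (Coord ℓ) σ).symm t)) =
      locPt ι (pt01 ℓ ℚ_[ℓ]) ((galBar (Coord ℓ) σ).symm t) := RingHom.congr_fun hy _
  rw [e2]
  have e3 := locPt_galBar ι (pt01 ℓ ℚ_[ℓ]) σ τ hστ ((galBar (Coord ℓ) σ).symm t)
  rw [RingEquiv.apply_symm_apply] at e3
  exact e3

theorem agree (hodd : Odd ℓ) (ha : a ^ ℓ = ℓ) (h : AH ℓ →+* PadicAlgCl ℓ)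
    (hh : ∀ g : SHat ι a, h g = evS ι ha g) (σ : GalQ) (τ : GalQv ℓ)
    (hστ : ∀ z, τ (ι z) = ι (σ z)) (g : AH ℓ) (hg : ThetaHat ι a g ∈ BO ℓ) :
    h g = τ (h (wInv ℓ σ g)) := by
  obtain ⟨hmem0, heq⟩ := eval_equivariant hodd ha τ (map_map_wInv ι σ τ hστ g) hg
  have h1 := hh ⟨g, hg⟩
  have h2 := hh ⟨wInv ℓ σ g, hmem0⟩
  rw [evS_apply] at h1 h2
  refine h1.trans ?_
  refine Eq.trans ?_ (congrArg τ h2.symm)
  exact heq.symm

theorem exists_zeta (ℓ p : ℕ) [hℓ : Fact ℓ.Prime] [hp : Fact p.Prime] :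
    ∃ ζ : Bar (Coord ℓ), IsPrimitiveRoot ζ p := by
  obtain ⟨ζ, hζ⟩ := HasEnoughRootsOfUnity.exists_primitiveRoot Qbar p
  have hn : Nontrivial (Bar (Coord ℓ)) := (bar_isDomain ℓ hℓ.out.ne_zero).toNontrivial
  let i : Qbar →+* Bar (Coord ℓ) := Algebra.TensorProduct.includeLeftRingHom
  exact ⟨i ζ, hζ.map_of_injective (f := i) i.injective⟩

end Pool.Agent.KimAff
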