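import Pool.Agent.H8.KimA.Local3

/-!
# The local classes at `ℓ` of `[1 : 0]` and `[0 : 1]` are equal
-/

open PowerSeries
open scoped TensorProduct

noncomputable section

namespace Pool.Agent.KimAff

open Pool.Agent.H83.Kim (Ahat UQ BO evalBO pathOf Path exists_extension star
  C_mem_BO evalBO_C map_galois_mem evalBO_spec evalBO_eq)

attribute [local instance] MvPolynomial.gradedAlgebra

variable {ℓ : ℕ} [hℓ : Fact ℓ.Prime] (ι : Qbar →+* Qvbar ℓ)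

instance ratAlgebraBar : Algebra ℚ (Bar (Coord ℓ)) :=
  (Algebra.TensorProduct.leftAlgebra : Algebra ℚ (Qbar ⊗[ℤ] Coord ℓ))

/-- The path from `[1 : 0]` to `[0 : 1]` defined by an evaluation of the universal cover. -/
def deltaPath (h : AH ℓ →+* PadicAlgCl ℓ)
    (hy : h.comp (algebraMap (Bar (Coord ℓ)) (AH ℓ)) = locPt ι (pt01 ℓ ℚ_[ℓ])) :
    Path (basePt (base ℓ)) (locPt ι (pt01 ℓ ℚ_[ℓ])) :=
  pathOf constantCoeff constantCoeff_surj (constantCoeff_comp ℓ) h hy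

theorem deltaPath_act (h : AH ℓ →+* PadicAlgCl ℓ)
    (hy : h.comp (algebraMap (Bar (Coord ℓ)) (AH ℓ)) = locPt ι (pt01 ℓ ℚ_[ℓ]))
    (σ : GalQ) (τ : GalQv ℓ) (hστ : ∀ z, τ (ι z) = ι (σ z)) :
    pathAct (base ℓ) σ τ hστ (deltaPath ι h hy) =
      deltaPath ι ((τ.toRingEquiv : Qvbar ℓ →+* Qvbar ℓ).comp (h.comp (wInv ℓ σ)))
        (comp_wInv ι h hy σ τ hστ) := by
  have := pathOf_act constantCoeff constantCoeff_surj (constantCoeff_comp ℓ) h hy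
    (galBar (Coord ℓ) σ) (wGal σ) (wGal_algebraMap ℓ σ) σ.toRingEquiv τ.toRingEquiv
    (basePt_galBar (base ℓ) σ) (locPt_galBar ι (pt01 ℓ ℚ_[ℓ]) σ τ hστ) (constantCoeff_wGal σ)
    (comp_wInv ι h hy σ τ hστ)
  unfold pathAct deltaPath wInv
  exact this

theorem exists_delta (hodd : Odd ℓ) (p n : ℕ) [hp : Fact p.Prime] (hpl : p ≠ ℓ) :
    ∃ δ : Path (basePt (base ℓ)) (locPt ι (pt01 ℓ ℚ_[ℓ])),
      ∀ (σ : GalQ) (τ : GalQv ℓ) (h : ∀ z, τ (ι z) = ι (σ z)),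
        UQ.of p n (δ.diff (pathAct (base ℓ) σ τ h δ)) = 1 := by
  obtain ⟨a, ha⟩ := IsAlgClosed.exists_pow_nat_eq (ℓ : PadicAlgCl ℓ) hℓ.out.pos
  obtain ⟨h, hh, hy⟩ := exists_h ι ha
  obtain ⟨ζ, hζ⟩ := exists_zeta ℓ p
  refine ⟨deltaPath ι h hy, ?_⟩
  intro σ τ hστ
  rw [deltaPath_act]
  apply UQ.of_eq_one p n hp.out
  intro V hV hVo hVp
  have key := star constantCoeff constantCoeff_surj (constantCoeff_comp ℓ) (p := p) hpl hζ
    (ThetaHat ι a) (ThetaHat_mem ι ha) h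
    ((τ.toRingEquiv : Qvbar ℓ →+* Qvbar ℓ).comp (h.comp (wInv ℓ σ))) hy
    (comp_wInv ι h hy σ τ hστ) (fun g hg => agree ι hodd ha h hh σ τ hστ g hg) V hV hVo hVp
  exact key

end Pool.Agent.KimAff
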