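import Pool.Agent.H8.KimA.Local4
import Pool.Agent.H8.KimA.Global

/-!
# Weakly global points that are not integral
-/

noncomputable section

namespace Pool.Agent.KimAff

attribute [local instance] MvPolynomial.gradedAlgebra

theorem isUnit_zero_one_padic {ℓ v : ℕ} [hℓ : Fact ℓ.Prime] [hv : Fact v.Prime] (h : v ≠ ℓ) :
    IsUnit ((0 : ℤ_[v]) ^ ℓ - (ℓ : ℤ_[v]) * 1 ^ ℓ) := by
  rw [zero_pow hℓ.out.ne_zero, one_pow, mul_one, zero_sub, IsUnit.neg_iff, PadicInt.isUnit_iff]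
  have h1 : ‖((ℓ : ℕ) : ℚ_[v])‖ = 1 := by
    rw [Padic.norm_natCast_eq_one_iff]
    exact (Nat.coprime_primes hv.out hℓ.out).mpr h
  exact_mod_cast h1

theorem toQv_zero_one {ℓ v : ℕ} [hℓ : Fact ℓ.Prime] [hv : Fact v.Prime] (h : v ≠ ℓ) :
    toQv (point (ℓ := ℓ) (0 : ℤ_[v]) 1 (isUnit_zero_one_padic h)) =
      (algebraMap ℚ ℚ_[v]).comp (pt01 ℓ ℚ) := by
  rw [comp_pt01, toQv, pt01, comp_point _ _ _ _
    (by rw [map_zero, map_one]; exact isUnit_zero_one ℓ)]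
  congr 1

theorem main (ℓ : ℕ) [hℓ : Fact ℓ.Prime] (hodd : Odd ℓ) (p : ℕ) [hp : Fact p.Prime] (hpl : p ≠ ℓ)
    (n : ℕ) (ι : ∀ (v : ℕ) [Fact v.Prime], Qbar →+* Qvbar v) :
    Set.range (fun z : Coord ℓ →+* ℤ => (Int.castRingHom ℤ_[p]).comp z) ⊂
      weaklyGlobal (base ℓ) p n ι := by
  rw [Set.ssubset_iff_of_subset]
  · refine ⟨point (0 : ℤ_[p]) 1 (isUnit_zero_one_padic hpl), ?_, ?_⟩
    · refine mem_weaklyGlobal (base ℓ) p n ι (pt01 ℓ ℚ) ℓ ?_ ?_ _ (toQv_zero_one hpl)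
      · intro v _ hv
        exact ⟨_, toQv_zero_one hv⟩
      · intro _
        have e : (algebraMap ℚ ℚ_[ℓ]).comp (pt01 ℓ ℚ) = pt01 ℓ ℚ_[ℓ] := comp_pt01 _
        rw [e]
        exact exists_delta (ι ℓ) hodd p n hpl
    · rintro ⟨z, hz⟩
      have h1 := point_gen (0 : ℤ_[p]) 1 (isUnit_zero_one_padic hpl) ℓ le_rfl
      have h2 := RingHom.congr_fun hz (gen ℓ ℓ le_rfl)
      rw [← h2] at h1
      rw [zero_pow hℓ.out.ne_zero, one_pow, mul_one, zero_sub, Nat.sub_self, pow_zero,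
        one_mul] at h1
      have h3 : ((z (gen ℓ ℓ le_rfl) * (-(ℓ : ℤ)) : ℤ) : ℤ_[p]) = ((1 : ℤ) : ℤ_[p]) := by
        push_cast
        exact h1
      have h4 : z (gen ℓ ℓ le_rfl) * (-(ℓ : ℤ)) = 1 := by exact_mod_cast h3
      have h5 : (ℓ : ℤ) ∣ 1 := ⟨-z (gen ℓ ℓ le_rfl), by rw [← h4]; ring⟩
      have h6 : ℓ ∣ 1 := by exact_mod_cast h5
      exact hℓ.out.one_lt.ne' (Nat.dvd_one.mp h6)
  · rintro _ ⟨z, rfl⟩
    exact int_mem_weaklyGlobal (base ℓ) p n ι z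

end Pool.Agent.KimAff
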