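import Pool.Agent.H83.Kim.Eval

/-!
# Substitutions preserving bounded power series
-/

open PowerSeries

noncomputable section

namespace Pool.Agent.KimAff

open Pool.Agent.H83.Kim

variable {ℓ : ℕ} [Fact ℓ.Prime]

/-- Integral elements of a subfield of the algebraic closure of `ℚ_ℓ`. -/
def OK (K : IntermediateField ℚ_[ℓ] (PadicAlgCl ℓ)) : Subring (PadicAlgCl ℓ) where
  carrier := {x | x ∈ K ∧ ‖x‖ ≤ 1}
  mul_mem' := by
    rintro a b ⟨ha, ha'⟩ ⟨hb, hb'⟩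
    refine ⟨K.mul_mem ha hb, ?_⟩
    rw [norm_mul]
    exact mul_le_one₀ ha' (norm_nonneg _) hb'
  one_mem' := ⟨K.one_mem, norm_one.le⟩
  add_mem' := by
    rintro a b ⟨ha, ha'⟩ ⟨hb, hb'⟩
    exact ⟨K.add_mem ha hb, (IsUltrametricDist.norm_add_le_max _ _).trans (max_le ha' hb')⟩
  zero_mem' := ⟨K.zero_mem, by simp⟩
  neg_mem' := by
    rintro a ⟨ha, ha'⟩
    exact ⟨K.neg_mem ha, by rwa [norm_neg]⟩

theorem mem_OK {K : IntermediateField ℚ_[ℓ] (PadicAlgCl ℓ)} {x : PadicAlgCl ℓ} :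
    x ∈ OK K ↔ x ∈ K ∧ ‖x‖ ≤ 1 := Iff.rfl

/-- Power series with coefficients in `OK K`. -/
def IK (K : IntermediateField ℚ_[ℓ] (PadicAlgCl ℓ)) : Subring (PadicAlgCl ℓ)⟦X⟧ :=
  (PowerSeries.map (OK K).subtype).range

theorem mem_IK {K : IntermediateField ℚ_[ℓ] (PadicAlgCl ℓ)} {g : (PadicAlgCl ℓ)⟦X⟧} :
    g ∈ IK K ↔ ∀ i, coeff i g ∈ OK K := by
  constructor
  · rintro ⟨h, rfl⟩ i
    rw [coeff_map]
    exact (coeff i h).2
  · intro h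
    refine ⟨PowerSeries.mk fun i => ⟨coeff i g, h i⟩, ?_⟩
    ext i
    rw [coeff_map, coeff_mk]
    rfl

theorem IK_mem_BO {K : IntermediateField ℚ_[ℓ] (PadicAlgCl ℓ)} [hK : FiniteDimensional ℚ_[ℓ] K]
    {g : (PadicAlgCl ℓ)⟦X⟧} (hg : g ∈ IK K) : g ∈ BO ℓ := by
  rw [mem_IK] at hg
  exact ⟨K, hK, fun i => (hg i).1, 1, fun i => (hg i).2⟩

theorem C_mem_IK {K : IntermediateField ℚ_[ℓ] (PadicAlgCl ℓ)} {x : PadicAlgCl ℓ} (hx : x ∈ OK K) :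
    C x ∈ IK K := ⟨C ⟨x, hx⟩, by rw [map_C]; rfl⟩

theorem X_mem_IK {K : IntermediateField ℚ_[ℓ] (PadicAlgCl ℓ)} :
    (X : (PadicAlgCl ℓ)⟦X⟧) ∈ IK K := ⟨X, by rw [map_X]⟩

theorem exists_inv_mem_IK {K : IntermediateField ℚ_[ℓ] (PadicAlgCl ℓ)} {g : (PadicAlgCl ℓ)⟦X⟧}
    (hg : g ∈ IK K) (h1 : constantCoeff g = 1) : ∃ h ∈ IK K, h * g = 1 := by
  obtain ⟨g', rfl⟩ := hg
  have h2 : constantCoeff g' = 1 := by
    rw [← coeff_zero_eq_constantCoeff_apply, coeff_map, coeff_zero_eq_constantCoeff_apply] at h1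
    exact Subtype.ext h1
  have h3 : IsUnit g' := by
    rw [isUnit_iff_constantCoeff, h2]
    exact isUnit_one
  obtain ⟨h', hh'⟩ := isUnit_iff_exists_inv'.mp h3
  exact ⟨_, ⟨h', rfl⟩, by rw [← map_mul, hh', map_one]⟩

theorem subst_mem_BO {K : IntermediateField ℚ_[ℓ] (PadicAlgCl ℓ)} [hK : FiniteDimensional ℚ_[ℓ] K]
    {φ : (PadicAlgCl ℓ)⟦X⟧} (hφ : φ ∈ IK K) (h0 : constantCoeff φ = 0) {g : (PadicAlgCl ℓ)⟦X⟧}
    (hg : g ∈ BO ℓ) : g.subst φ ∈ BO ℓ := by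
  obtain ⟨L, hL, hgL, M, hM⟩ := hg
  have hM0 : 0 ≤ M := (norm_nonneg _).trans (hM 0)
  have hs : HasSubst φ := HasSubst.of_constantCoeff_zero' h0
  have hpow : ∀ d, φ ^ d ∈ IK K := fun d => (IK K).pow_mem hφ d
  have hfin : ∀ i, ∃ s : Finset ℕ, coeff i (g.subst φ) =
      ∑ d ∈ s, coeff d g * coeff i (φ ^ d) := by
    intro i
    rw [coeff_subst' hs]
    have h1 := coeff_subst_finite' hs g i
    rw [finsum_eq_sum _ h1]
    exact ⟨_, rfl⟩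
  refine ⟨K ⊔ L, inferInstance, fun i => ?_, M, fun i => ?_⟩
  · obtain ⟨s, hs⟩ := hfin i
    rw [hs]
    refine (K ⊔ L).sum_mem fun d _ => (K ⊔ L).mul_mem ?_ ?_
    · exact (le_sup_right : L ≤ K ⊔ L) (hgL d)
    · exact (le_sup_left : K ≤ K ⊔ L) (mem_IK.mp (hpow d) i).1
  · obtain ⟨s, hs⟩ := hfin i
    rw [hs]
    refine IsUltrametricDist.norm_sum_le_of_forall_le_of_nonneg hM0 fun d _ => ?_
    rw [norm_mul]
    exact (mul_le_mul (hM d) (mem_IK.mp (hpow d) i).2 (norm_nonneg _) hM0).trans_eq (mul_one M)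

theorem evalBO_subst {K : IntermediateField ℚ_[ℓ] (PadicAlgCl ℓ)} [hK : FiniteDimensional ℚ_[ℓ] K]
    {φ : (PadicAlgCl ℓ)⟦X⟧} (hφ : φ ∈ IK K) (h0 : constantCoeff φ = 0) {y z : PadicAlgCl ℓ}
    (hy : ‖y‖ < 1) (hz : ‖z‖ < 1) {ψ : (PadicAlgCl ℓ)⟦X⟧} (hψ : ψ ∈ BO ℓ)
    (h : φ - C z = ψ * (X - C y)) (g : BO ℓ) :
    evalBO y hy ⟨(g : (PadicAlgCl ℓ)⟦X⟧).subst φ, subst_mem_BO hφ h0 g.2⟩ = evalBO z hz g := by
  obtain ⟨q, hq, hqg⟩ := evalBO_spec z hz g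
  have hs : HasSubst φ := HasSubst.of_constantCoeff_zero' h0
  refine evalBO_eq (q := q.subst φ * ψ) ((BO ℓ).mul_mem (subst_mem_BO hφ h0 hq) hψ) ?_
  have h1 := congrArg (substAlgHom (R := PadicAlgCl ℓ) hs) hqg
  rw [map_add, map_mul, map_sub, substAlgHom_X] at h1
  have hC : ∀ c : PadicAlgCl ℓ, substAlgHom (R := PadicAlgCl ℓ) hs (C c) = C c := by
    intro c
    rw [coe_substAlgHom]
    exact subst_C c
  rw [hC, hC, h, ← mul_assoc, coe_substAlgHom] at h1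
  exact h1

end Pool.Agent.KimAff
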